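import Mathlib
import Pool.Agent.H320R2.LD.Defs

set_option autoImplicit false

/-!
# Images of the standard Gaussian measure under orthonormal families
-/

namespace Pool.Agent.T6.H88.GP

open MeasureTheory ProbabilityTheory
open Pool.Agent.H320R2.LD (gam nsq nrm Lip)

theorem orth_map {V α : Type} [Fintype V] [Fintype α] [DecidableEq α] (u : α → V → ℝ)
    (hu : ∀ a b, ∑ v, u a v * u b v = if a = b then 1 else 0) :
    MeasurePreserving (fun (x : V → ℝ) (a : α) => ∑ v, u a v * x v) (gam V) (gam α) := by
  have hm : Measurable (fun (x : V → ℝ) (a : α) => ∑ v, u a v * x v) := by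
    fun_prop
  refine ⟨hm, ?_⟩
  unfold gam
  rw [← charFun_eq_pi_iff]
  intro t
  set s : EuclideanSpace ℝ V := WithLp.toLp 2 (fun v => ∑ a, t a * u a v) with hs
  have h1 : charFun (((Measure.pi fun _ : V => gaussianReal 0 1).map
      (fun (x : V → ℝ) (a : α) => ∑ v, u a v * x v)).map (WithLp.toLp 2)) t =
      charFun ((Measure.pi fun _ : V => gaussianReal 0 1).map (WithLp.toLp 2)) s := by
    have ht : Measurable (WithLp.toLp 2 : (α → ℝ) → EuclideanSpace ℝ α) :=
      (MeasurableEquiv.toLp 2 (α → ℝ)).measurable
    rw [charFun_apply, charFun_apply, Measure.map_map ht hm,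
      integral_map (ht.comp hm).aemeasurable (by fun_prop),
      integral_map (by fun_prop) (by fun_prop)]
    apply integral_congr_ae
    apply Filter.Eventually.of_forall
    intro x
    simp only [Function.comp]
    congr 2
    norm_cast
    rw [PiLp.inner_apply, PiLp.inner_apply]
    simp only [hs, RCLike.inner_apply, conj_trivial]
    simp only [Finset.mul_sum, Finset.sum_mul]
    rw [Finset.sum_comm]
    apply Finset.sum_congr rfl
    intro v _
    apply Finset.sum_congr rfl
    intro a _
    ring
  rw [h1, charFun_pi]
  simp only [charFun_gaussianReal]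
  rw [← Complex.exp_sum, ← Complex.exp_sum]
  congr 1
  simp only [Complex.ofReal_zero, mul_zero, zero_mul, zero_sub, NNReal.coe_one, Complex.ofReal_one, one_mul]
  rw [Finset.sum_neg_distrib, Finset.sum_neg_distrib, ← Finset.sum_div, ← Finset.sum_div]
  congr 2
  norm_cast
  simp only [hs]
  have h2 : ∀ v, (∑ a, t a * u a v) ^ 2 = ∑ a, ∑ b, t a * t b * (u a v * u b v) := by
    intro v
    rw [sq, Finset.sum_mul_sum]
    apply Finset.sum_congr rfl
    intro a _
    apply Finset.sum_congr rfl
    intro b _
    ring
  simp only [h2]
  rw [Finset.sum_comm]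
  apply Finset.sum_congr rfl
  intro a _
  rw [Finset.sum_comm]
  simp only [← Finset.mul_sum, hu]
  simp [sq]

/-- injections -/
theorem inj_map {V α : Type} [Fintype V] [Fintype α] (f : α → V) (hf : Function.Injective f) :
    MeasurePreserving (fun (x : V → ℝ) (a : α) => x (f a)) (gam V) (gam α) := by
  classical
  have := orth_map (V := V) (α := α) (fun a v => if v = f a then 1 else 0) (by
    intro a b
    simp only [ite_mul, one_mul, zero_mul, Finset.sum_ite_eq', Finset.mem_univ, if_true]
    by_cases h : a = b
    · subst h; simp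
    · have : f a ≠ f b := fun h' => h (hf h')
      simp [h, this])
  simpa using this

/-- injections with signs -/
theorem sgn_map {V α : Type} [Fintype V] [Fintype α] (f : α → V) (hf : Function.Injective f)
    (σ : α → ℝ) (hσ : ∀ a, σ a ^ 2 = 1) :
    MeasurePreserving (fun (x : V → ℝ) (a : α) => σ a * x (f a)) (gam V) (gam α) := by
  classical
  have := orth_map (V := V) (α := α) (fun a v => if v = f a then σ a else 0) (by
    intro a b
    simp only [ite_mul, zero_mul, Finset.sum_ite_eq', Finset.mem_univ, if_true]
    by_cases h : a = b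
    · subst h; simp [← sq, hσ]
    · have : f a ≠ f b := fun h' => h (hf h')
      simp [h, this])
  simpa using this

/-- the law of a pair -/
theorem sum_map {α β : Type} [Fintype α] [Fintype β] :
    MeasurePreserving (fun (x : α ⊕ β → ℝ) => ((fun a => x (Sum.inl a)), (fun b => x (Sum.inr b))))
      (gam (α ⊕ β)) ((gam α).prod (gam β)) := by
  have := measurePreserving_sumPiEquivProdPi (X := fun _ : α ⊕ β => ℝ)
    (fun _ : α ⊕ β => gaussianReal 0 1)
  exact this

end Pool.Agent.T6.H88.GP
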