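import Mathlib
import Pool.Agent.T6.H88.GP.Orth

set_option autoImplicit false

/-!
# The `ℓ_p` ball, maxima, and the first order condition
-/

namespace Pool.Agent.T6.H88.GP

open MeasureTheory ProbabilityTheory
open Pool.Agent.H320R2.LD (gam nsq nrm Lip)

noncomputable section

/-- the quadratic form of a matrix -/
def Q {ι : Type} [Fintype ι] (A : ι × ι → ℝ) (x : ι → ℝ) : ℝ := ∑ q : ι × ι, A q * (x q.1 * x q.2)

/-- the sum of the `p`-th powers -/
def ps (p : ℝ) {ι : Type} [Fintype ι] (x : ι → ℝ) : ℝ := ∑ a, |x a| ^ p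

/-- the unit ball of `ℓ_p` -/
def BB (p : ℝ) (ι : Type) [Fintype ι] : Set (ι → ℝ) := {x | ps p x ≤ 1}

/-- the maximum over the unit ball of `ℓ_p` -/
def mx (p : ℝ) {ι : Type} [Fintype ι] (f : (ι → ℝ) → ℝ) : ℝ := sSup (f '' BB p ι)

variable {ι : Type} [Fintype ι] {p : ℝ}

theorem ps_nonneg (x : ι → ℝ) : 0 ≤ ps p x :=
  Finset.sum_nonneg fun _ _ => Real.rpow_nonneg (abs_nonneg _) _

theorem ps_cont (hp : 0 < p) : Continuous (fun x : ι → ℝ => ps p x) := by
  unfold ps
  apply continuous_finsetSum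
  intro a _
  exact (continuous_abs.comp (continuous_apply a)).rpow_const (fun _ => Or.inr hp.le)

theorem zero_BB (hp : 0 < p) : (0 : ι → ℝ) ∈ BB p ι := by
  simp [BB, ps, Real.zero_rpow hp.ne']

theorem abs_le_one (hp : 0 < p) {x : ι → ℝ} (hx : x ∈ BB p ι) (a : ι) : |x a| ≤ 1 := by
  by_contra h
  push Not at h
  have h1 : 1 < |x a| ^ p := Real.one_lt_rpow h hp
  have h2 : |x a| ^ p ≤ ps p x :=
    Finset.single_le_sum (f := fun a => |x a| ^ p)
      (fun _ _ => Real.rpow_nonneg (abs_nonneg _) _) (Finset.mem_univ a)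
  have h3 : ps p x ≤ 1 := hx
  linarith

theorem BB_compact (hp : 0 < p) : IsCompact (BB p ι) := by
  apply IsCompact.of_isClosed_subset (s := Set.pi Set.univ (fun _ : ι => Set.Icc (-1 : ℝ) 1))
  · exact isCompact_univ_pi fun _ => isCompact_Icc
  · exact isClosed_le (ps_cont hp) continuous_const
  · intro x hx a _
    exact abs_le.mp (abs_le_one hp hx a)

theorem exists_mx (hp : 0 < p) {f : (ι → ℝ) → ℝ} (hf : Continuous f) :
    ∃ x ∈ BB p ι, mx p f = f x ∧ ∀ y ∈ BB p ι, f y ≤ f x := by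
  obtain ⟨x, hx, h1⟩ := (BB_compact (ι := ι) hp).exists_isMaxOn ⟨0, zero_BB hp⟩ hf.continuousOn
  refine ⟨x, hx, ?_, fun y hy => h1 hy⟩
  apply le_antisymm
  · apply csSup_le (Set.Nonempty.image _ ⟨0, zero_BB hp⟩)
    rintro _ ⟨y, hy, rfl⟩
    exact h1 hy
  · apply le_csSup
    · refine ⟨f x, ?_⟩
      rintro _ ⟨y, hy, rfl⟩
      exact h1 hy
    · exact ⟨x, hx, rfl⟩

theorem le_mx (hp : 0 < p) {f : (ι → ℝ) → ℝ} (hf : Continuous f) {x : ι → ℝ} (hx : x ∈ BB p ι) :
    f x ≤ mx p f := by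
  obtain ⟨y, _, h1, h2⟩ := exists_mx hp hf
  rw [h1]
  exact h2 x hx

theorem mx_le (hp : 0 < p) {f : (ι → ℝ) → ℝ} {c : ℝ} (h : ∀ x ∈ BB p ι, f x ≤ c) :
    mx p f ≤ c := by
  apply csSup_le (Set.Nonempty.image _ ⟨0, zero_BB hp⟩)
  rintro _ ⟨y, hy, rfl⟩
  exact h y hy

theorem mx_abs_sub (hp : 0 < p) {f g : (ι → ℝ) → ℝ} (hf : Continuous f) (hg : Continuous g)
    {δ : ℝ} (h : ∀ x ∈ BB p ι, |f x - g x| ≤ δ) : |mx p f - mx p g| ≤ δ := by
  rw [abs_le]
  constructor
  · have : mx p g ≤ mx p f + δ := by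
      apply mx_le hp
      intro x hx
      have h1 := le_mx hp hf hx
      have h2 := (abs_le.mp (h x hx)).1
      linarith
    linarith
  · have : mx p f ≤ mx p g + δ := by
      apply mx_le hp
      intro x hx
      have h1 := le_mx hp hg hx
      have h2 := (abs_le.mp (h x hx)).2
      linarith
    linarith

theorem Q_cont (A : ι × ι → ℝ) : Continuous (Q A) := by
  unfold Q
  fun_prop

theorem Q_smul (A : ι × ι → ℝ) (c : ℝ) (x : ι → ℝ) : Q A (fun a => c * x a) = c ^ 2 * Q A x := by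
  unfold Q
  rw [Finset.mul_sum]
  apply Finset.sum_congr rfl
  intro q _
  ring

theorem ps_smul (c : ℝ) (x : ι → ℝ) : ps p (fun a => c * x a) = |c| ^ p * ps p x := by
  unfold ps
  rw [Finset.mul_sum]
  apply Finset.sum_congr rfl
  intro q _
  rw [abs_mul, Real.mul_rpow (abs_nonneg _) (abs_nonneg _)]

theorem nsq_le (hp : 2 < p) (x : ι → ℝ) :
    nsq x ≤ (Fintype.card ι : ℝ) ^ (1 - 2 / p) * (ps p x) ^ (2 / p) := by
  have hp0 : 0 < p := by linarith
  have h1 := Real.rpow_sum_le_const_mul_sum_rpow (p := p / 2) Finset.univ (fun a => x a ^ 2)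
    (by linarith)
  have h2 : ∀ a, |x a ^ 2| ^ (p / 2) = |x a| ^ p := by
    intro a
    rw [abs_pow, ← Real.rpow_natCast, ← Real.rpow_mul (abs_nonneg _)]
    congr 1
    push_cast
    ring
  simp only [h2] at h1
  have h3 : ∑ a, |x a ^ 2| = nsq x := by
    unfold nsq
    apply Finset.sum_congr rfl
    intro a _
    exact abs_of_nonneg (sq_nonneg _)
  rw [h3] at h1
  have h0 : 0 ≤ nsq x := Finset.sum_nonneg fun _ _ => sq_nonneg _
  have h4 := Real.rpow_le_rpow (Real.rpow_nonneg h0 _) h1 (show (0:ℝ) ≤ 2 / p by positivity)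
  rw [← Real.rpow_mul h0, show p / 2 * (2 / p) = 1 by field_simp, Real.rpow_one,
    Real.mul_rpow (by positivity) (Finset.sum_nonneg fun _ _ => Real.rpow_nonneg (abs_nonneg _) _),
    ← Real.rpow_mul (by positivity)] at h4
  have h5 : (p / 2 - 1) * (2 / p) = 1 - 2 / p := by field_simp
  rw [h5] at h4
  simpa [ps] using h4

theorem nsq_le_BB (hp : 2 < p) {x : ι → ℝ} (hx : x ∈ BB p ι) :
    nsq x ≤ (Fintype.card ι : ℝ) ^ (1 - 2 / p) := by
  have h1 := nsq_le hp x
  have h2 : (ps p x) ^ (2 / p) ≤ 1 :=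
    Real.rpow_le_one (ps_nonneg x) hx (by positivity)
  have h3 : (0:ℝ) ≤ (Fintype.card ι : ℝ) ^ (1 - 2 / p) := by positivity
  nlinarith

/-- homogeneity -/
theorem hom (hp : 2 < p) {A : ι × ι → ℝ} {c : ℝ} (h : ∀ y ∈ BB p ι, Q A y ≤ c)
    (z : ι → ℝ) : Q A z ≤ c * (ps p z) ^ (2 / p) := by
  have hp0 : 0 < p := by linarith
  have hc : 0 ≤ c := by
    have := h 0 (zero_BB hp0)
    simpa [Q] using this
  rcases (ps_nonneg (p := p) z).eq_or_lt with h0 | h0
  · have hz : z = 0 := by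
      have h1 : ∀ a, |z a| ^ p = 0 := by
        intro a
        have h2 : |z a| ^ p ≤ ps p z :=
          Finset.single_le_sum (f := fun a => |z a| ^ p)
            (fun _ _ => Real.rpow_nonneg (abs_nonneg _) _) (Finset.mem_univ a)
        rw [← h0] at h2
        exact le_antisymm h2 (Real.rpow_nonneg (abs_nonneg _) _)
      funext a
      have h2 := (Real.rpow_eq_zero (abs_nonneg _) hp0.ne').mp (h1 a)
      simpa using h2
    subst hz
    have : Q A 0 = 0 := by simp [Q]
    rw [this]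
    positivity
  · set s := ps p z with hs
    set r : ℝ := s ^ (-(1 / p)) with hr
    have hr0 : 0 < r := Real.rpow_pos_of_pos h0 _
    have h1 : (fun a => r * z a) ∈ BB p ι := by
      show ps p (fun a => r * z a) ≤ 1
      rw [ps_smul, ← hs, abs_of_pos hr0, hr, ← Real.rpow_mul h0.le,
        show -(1 / p) * p = -1 by field_simp, Real.rpow_neg_one, inv_mul_cancel₀ h0.ne']
    have h2 := h _ h1
    rw [Q_smul] at h2
    have h3 : r ^ 2 * s ^ (2 / p) = 1 := by
      rw [hr, ← Real.rpow_natCast, ← Real.rpow_mul h0.le, ← Real.rpow_add h0]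
      have : -(1 / p) * ((2 : ℕ) : ℝ) + 2 / p = 0 := by push_cast; ring
      rw [this, Real.rpow_zero]
    have h4 : 0 < s ^ (2 / p) := Real.rpow_pos_of_pos h0 _
    calc Q A z = (r ^ 2 * Q A z) * s ^ (2 / p) := by
          rw [mul_assoc, mul_comm (Q A z), ← mul_assoc, h3, one_mul]
      _ ≤ c * s ^ (2 / p) := mul_le_mul_of_nonneg_right h2 h4.le

section Minor

variable [DecidableEq ι]

/-- the minor -/
def Ak (A : ι × ι → ℝ) (i : ι) : {j // j ≠ i} × {j // j ≠ i} → ℝ := fun q => A (q.1.1, q.2.1)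

/-- the normalised row -/
def gk (A : ι × ι → ℝ) (i : ι) : {j // j ≠ i} → ℝ := fun j => (A (i, j.1) + A (j.1, i)) / √2

/-- the maximum of the perturbed form -/
def VV (p t : ℝ) {κ : Type} [Fintype κ] (A : κ × κ → ℝ) (g : κ → ℝ) : ℝ :=
  mx p (fun x => Q A x + t * ∑ a, g a * x a)

theorem Q_split (A : ι × ι → ℝ) (x : ι → ℝ) (i : ι) :
    Q A x = Q (Ak A i) (fun j => x j.1) +
      x i * (∑ j : {j // j ≠ i}, (A (i, j.1) + A (j.1, i)) * x j.1) + A (i, i) * x i ^ 2 := by
  unfold Q Ak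
  rw [Fintype.sum_prod_type, Fintype.sum_prod_type]
  rw [Fintype.sum_eq_add_sum_subtype_ne _ i]
  rw [Fintype.sum_eq_add_sum_subtype_ne _ i]
  have h1 : ∀ a : {j // j ≠ i}, ∑ b, A (a.1, b) * (x a.1 * x b) =
      A (a.1, i) * (x a.1 * x i) + ∑ b : {j // j ≠ i}, A (a.1, b.1) * (x a.1 * x b.1) := by
    intro a
    rw [Fintype.sum_eq_add_sum_subtype_ne _ i]
  simp only [h1]
  rw [Finset.sum_add_distrib, Finset.mul_sum]
  have h2 : ∑ j : {j // j ≠ i}, x i * ((A (i, j.1) + A (j.1, i)) * x j.1) =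
      ∑ j : {j // j ≠ i}, A (i, j.1) * (x i * x j.1) +
        ∑ j : {j // j ≠ i}, A (j.1, i) * (x j.1 * x i) := by
    rw [← Finset.sum_add_distrib]
    apply Finset.sum_congr rfl
    intro j _
    ring
  rw [h2]
  ring

theorem ps_split (x : ι → ℝ) (i : ι) :
    ps p x = ps p (fun j : {j // j ≠ i} => x j.1) + |x i| ^ p := by
  unfold ps
  rw [Fintype.sum_eq_add_sum_subtype_ne _ i]
  ring

/-- the first order condition in one coordinate -/
theorem first_order (hp : 2 < p) (A : ι × ι → ℝ) (x : ι → ℝ) (hx : x ∈ BB p ι)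
    (hopt : ∀ y ∈ BB p ι, Q A y ≤ Q A x) (hpos : 0 < Q A x) (i : ι) :
    x i * (∑ j : {j // j ≠ i}, (A (i, j.1) + A (j.1, i)) * x j.1) =
      2 * Q A x * |x i| ^ p - 2 * A (i, i) * x i ^ 2 := by
  have hp0 : 0 < p := by linarith
  set lam := Q A x with hlam
  have hhom := hom hp hopt
  have h1 : ps p x = 1 := by
    apply le_antisymm hx
    by_contra h
    push Not at h
    have h2 := hhom x
    have h3 : (ps p x) ^ (2 / p) < 1 := Real.rpow_lt_one (ps_nonneg x) h (by positivity)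
    rw [← hlam] at h2
    nlinarith
  set X := ∑ j : {j // j ≠ i}, (A (i, j.1) + A (j.1, i)) * x j.1 with hX
  set M := |x i| ^ p with hM
  have hQz : ∀ c : ℝ, Q A (Function.update x i c) =
      lam + (c - x i) * X + A (i, i) * (c ^ 2 - x i ^ 2) := by
    intro c
    rw [hlam, Q_split A (Function.update x i c) i, Q_split A x i]
    have h2 : ∀ j : {j // j ≠ i}, Function.update x i c j.1 = x j.1 := fun j =>
      Function.update_of_ne j.2 _ _
    simp only [h2, Function.update_self, ← hX]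
    ring
  have hpz : ∀ s : ℝ, -1 < s → ps p (Function.update x i ((1 + s) * x i)) =
      1 + M * ((1 + s) ^ p - 1) := by
    intro s hs
    have h1' := h1
    rw [ps_split x i] at h1'
    rw [ps_split (Function.update x i ((1 + s) * x i)) i]
    have h2 : ∀ j : {j // j ≠ i}, Function.update x i ((1 + s) * x i) j.1 = x j.1 := fun j =>
      Function.update_of_ne j.2 _ _
    simp only [h2, Function.update_self]
    rw [abs_mul, abs_of_pos (by linarith : 0 < 1 + s),
      Real.mul_rpow (by linarith) (abs_nonneg _), ← hM]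
    rw [← hM] at h1'
    linear_combination h1'
  set h : ℝ → ℝ := fun s => lam * (1 + M * ((1 + s) ^ p - 1)) ^ (2 / p) -
    (lam + (((1 + s) * x i) - x i) * X + A (i, i) * (((1 + s) * x i) ^ 2 - x i ^ 2)) with hh
  have hmin : IsLocalMin h 0 := by
    have : ∀ᶠ s in nhds (0 : ℝ), -1 < s := eventually_gt_nhds (by norm_num)
    filter_upwards [this] with s hs
    have h2 := hhom (Function.update x i ((1 + s) * x i))
    rw [hQz, hpz s hs] at h2
    have h3 : h 0 = 0 := by
      simp [hh]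
    rw [h3]
    simp only [hh]
    linarith
  have hder : HasDerivAt h (lam * ((M * (1 * p * (1 + 0) ^ (p - 1))) * (2 / p) *
      (1 + M * ((1 + 0) ^ p - 1)) ^ (2 / p - 1)) -
      ((x i) * X + A (i, i) * (2 * ((1 + 0) * x i) * x i))) 0 := by
    have d1 : HasDerivAt (fun s : ℝ => 1 + s) 1 0 := by
      simpa using (hasDerivAt_id (0 : ℝ)).const_add 1
    have d2 : HasDerivAt (fun s : ℝ => (1 + s) ^ p) (1 * p * (1 + 0) ^ (p - 1)) 0 :=
      d1.rpow_const (Or.inl (by norm_num))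
    have d3 : HasDerivAt (fun s : ℝ => 1 + M * ((1 + s) ^ p - 1))
        (M * (1 * p * (1 + 0) ^ (p - 1))) 0 := by
      have := ((d2.sub_const 1).const_mul M).const_add 1
      exact this
    have d4 : HasDerivAt (fun s : ℝ => (1 + M * ((1 + s) ^ p - 1)) ^ (2 / p))
        ((M * (1 * p * (1 + 0) ^ (p - 1))) * (2 / p) *
        (1 + M * ((1 + 0) ^ p - 1)) ^ (2 / p - 1)) 0 :=
      d3.rpow_const (Or.inl (by simp))
    have d5 : HasDerivAt (fun s : ℝ => (1 + s) * x i) (x i) 0 := by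
      simpa using d1.mul_const (x i)
    have d6 : HasDerivAt (fun s : ℝ => (((1 + s) * x i) - x i) * X) (x i * X) 0 :=
      (d5.sub_const (x i)).mul_const X
    have d7 : HasDerivAt (fun s : ℝ => ((1 + s) * x i) ^ 2) (2 * ((1 + 0) * x i) * x i) 0 := by
      have := d5.fun_pow 2
      simpa using this
    have d8 : HasDerivAt (fun s : ℝ => A (i, i) * (((1 + s) * x i) ^ 2 - x i ^ 2))
        (A (i, i) * (2 * ((1 + 0) * x i) * x i)) 0 := (d7.sub_const _).const_mul _
    have d9 := ((d6.const_add lam).add d8)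
    exact (d4.const_mul lam).sub d9
  have h0 := hmin.hasDerivAt_eq_zero hder
  simp only [add_zero, Real.one_rpow, sub_self, mul_zero, mul_one, one_mul] at h0
  have h5 : lam * (M * p * (2 / p)) = 2 * lam * M := by
    field_simp
  rw [h5] at h0
  linarith

theorem det_main (hp : 2 < p) (A : ι × ι → ℝ) (x : ι → ℝ) (hx : x ∈ BB p ι)
    (hopt : ∀ y ∈ BB p ι, Q A y ≤ Q A x) (hpos : 0 < Q A x) (i : ι) (hi : x i ≠ 0) (t : ℝ)
    (ht : 2 * √2 * |x i| ≤ t) :
    2 * Q A x * |x i| ^ p ≤ VV p t (Ak A i) (gk A i) - Q A x + 3 * |A (i, i)| * x i ^ 2 := by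
  have hp0 : 0 < p := by linarith
  have h1 := first_order hp A x hx hopt hpos i
  have h2 := Q_split A x i
  set S := ∑ j : {j // j ≠ i}, (A (i, j.1) + A (j.1, i)) * x j.1 with hS
  set y : {j // j ≠ i} → ℝ := fun j => x j.1 with hy
  have hg : ∑ j, gk A i j * y j = S / √2 := by
    rw [hS, Finset.sum_div]
    apply Finset.sum_congr rfl
    intro j _
    simp only [gk, hy]
    ring
  have hyB : y ∈ BB p {j // j ≠ i} := by
    have h3 : ps p x ≤ 1 := hx
    rw [ps_split x i] at h3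
    have : 0 ≤ |x i| ^ p := Real.rpow_nonneg (abs_nonneg _) _
    show ps p y ≤ 1
    linarith
  have hnB : (fun j => -y j) ∈ BB p {j // j ≠ i} := by
    have : ps p (fun j => -y j) = ps p y := by
      unfold ps
      simp
    show ps p (fun j => -y j) ≤ 1
    rw [this]
    exact hyB
  have hc : Continuous (fun x : {j // j ≠ i} → ℝ => Q (Ak A i) x + t * ∑ a, gk A i a * x a) := by
    have := Q_cont (Ak A i)
    fun_prop
  have e1 : Q (Ak A i) y + t * (S / √2) ≤ VV p t (Ak A i) (gk A i) := by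
    have := le_mx hp0 hc hyB
    simp only [hg] at this
    exact this
  have e2 : Q (Ak A i) y - t * (S / √2) ≤ VV p t (Ak A i) (gk A i) := by
    have := le_mx hp0 hc hnB
    simp only [mul_neg, Finset.sum_neg_distrib, hg] at this
    have h4 : Q (Ak A i) (fun j => -y j) = Q (Ak A i) y := by
      unfold Q
      apply Finset.sum_congr rfl
      intro q _
      ring
    rw [h4] at this
    unfold VV
    linarith
  have e3 : Q (Ak A i) y + t * (|S| / √2) ≤ VV p t (Ak A i) (gk A i) := by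
    rcases abs_cases S with ⟨h, _⟩ | ⟨h, _⟩
    · rw [h]; exact e1
    · rw [h]
      have : t * (-S / √2) = - (t * (S / √2)) := by ring
      linarith
  have hs2 : 0 < √2 := by positivity
  have hxi : 0 < |x i| := abs_pos.mpr hi
  have e4 : 2 * (|x i| * |S|) ≤ t * (|S| / √2) := by
    have : 2 * √2 * |x i| * (|S| / √2) ≤ t * (|S| / √2) :=
      mul_le_mul_of_nonneg_right ht (by positivity)
    have h5 : 2 * √2 * |x i| * (|S| / √2) = 2 * (|x i| * |S|) := by
      field_simp
    linarith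
  have e5 : x i * S ≤ |x i| * |S| := by
    rw [← abs_mul]
    exact le_abs_self _
  have e6 := neg_abs_le (A (i, i))
  have e7 := le_abs_self (A (i, i))
  have e8 : 0 ≤ x i ^ 2 := sq_nonneg _
  nlinarith [mul_le_mul_of_nonneg_right e6 e8, mul_le_mul_of_nonneg_right e7 e8]

end Minor

end

end Pool.Agent.T6.H88.GP
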