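import Mathlib
import Pool.Agent.T6.H88.GP.Det
import Pool.Agent.H320R2.LD.MGF
import Pool.Agent.H320R2.LD.CONC

set_option autoImplicit false

/-!
# Lipschitz estimates, integrability
-/

namespace Pool.Agent.T6.H88.GP

open MeasureTheory ProbabilityTheory
open Pool.Agent.H320R2.LD (gam nsq nrm Lip)

noncomputable section

theorem nsq_nonneg {V : Type} [Fintype V] (x : V → ℝ) : 0 ≤ nsq x :=
  Finset.sum_nonneg fun _ _ => sq_nonneg _

theorem nrm_nonneg {V : Type} [Fintype V] (x : V → ℝ) : 0 ≤ nrm x := Real.sqrt_nonneg _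

theorem nrm_sq {V : Type} [Fintype V] (x : V → ℝ) : nrm x ^ 2 = nsq x :=
  Real.sq_sqrt (nsq_nonneg x)

/-- Cauchy–Schwarz -/
theorem cs {V : Type} [Fintype V] (x y : V → ℝ) : |∑ v, x v * y v| ≤ nrm x * nrm y := by
  have h := Finset.sum_mul_sq_le_sq_mul_sq Finset.univ x y
  have h1 : (∑ v, x v * y v) ^ 2 ≤ (nrm x * nrm y) ^ 2 := by
    rw [mul_pow, nrm_sq, nrm_sq]
    exact h
  exact abs_le_of_sq_le_sq h1 (mul_nonneg (nrm_nonneg _) (nrm_nonneg _))

variable {ι : Type} [Fintype ι] {p : ℝ}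

theorem Q_sub (A A' : ι × ι → ℝ) (x : ι → ℝ) : |Q A x - Q A' x| ≤ nrm (A - A') * nsq x := by
  have h1 : Q A x - Q A' x = ∑ q, (A - A') q * (x q.1 * x q.2) := by
    unfold Q
    rw [← Finset.sum_sub_distrib]
    apply Finset.sum_congr rfl
    intro q _
    simp only [Pi.sub_apply]
    ring
  rw [h1]
  refine (cs _ _).trans ?_
  apply mul_le_mul_of_nonneg_left _ (nrm_nonneg _)
  apply le_of_eq
  unfold nrm
  have h2 : nsq (fun q : ι × ι => x q.1 * x q.2) = nsq x ^ 2 := by
    unfold nsq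
    rw [sq, Finset.sum_mul_sum, Fintype.sum_prod_type]
    apply Finset.sum_congr rfl
    intro a _
    apply Finset.sum_congr rfl
    intro b _
    ring
  rw [h2, Real.sqrt_sq (nsq_nonneg x)]

/-- the maximum of the form -/
def LL (p : ℝ) {ι : Type} [Fintype ι] (A : ι × ι → ℝ) : ℝ := mx p (Q A)

theorem nrm_le_BB (hp : 2 < p) {x : ι → ℝ} (hx : x ∈ BB p ι) :
    nrm x ≤ (Fintype.card ι : ℝ) ^ (1 / 2 - 1 / p) := by
  have h1 := nsq_le_BB hp hx
  unfold nrm
  rw [Real.sqrt_le_left (by positivity), ← Real.rpow_natCast, ← Real.rpow_mul (by positivity)]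
  convert h1 using 2
  push_cast
  field_simp

theorem VV_cont_x (t : ℝ) (A : ι × ι → ℝ) (g : ι → ℝ) :
    Continuous (fun x : ι → ℝ => Q A x + t * ∑ a, g a * x a) := by
  have := Q_cont A
  fun_prop

theorem VV_joint (hp : 2 < p) (t : ℝ) (A A' : ι × ι → ℝ) (g g' : ι → ℝ) :
    |VV p t A g - VV p t A' g'| ≤ (Fintype.card ι : ℝ) ^ (1 - 2 / p) * nrm (A - A') +
      |t| * (Fintype.card ι : ℝ) ^ (1 / 2 - 1 / p) * nrm (g - g') := by
  unfold VV
  apply mx_abs_sub (by linarith) (VV_cont_x t A g) (VV_cont_x t A' g')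
  intro x hx
  have h1 := Q_sub A A' x
  have h2 : |t * ∑ a, g a * x a - t * ∑ a, g' a * x a| ≤
      |t| * (nrm (g - g') * nrm x) := by
    rw [← mul_sub, abs_mul, ← Finset.sum_sub_distrib]
    apply mul_le_mul_of_nonneg_left _ (abs_nonneg _)
    have h3 : ∑ a, (g a * x a - g' a * x a) = ∑ a, (g - g') a * x a := by
      apply Finset.sum_congr rfl
      intro a _
      simp only [Pi.sub_apply]
      ring
    rw [h3]
    exact cs _ _
  have h3 := nsq_le_BB hp hx
  have h4 := nrm_le_BB hp hx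
  have h5 : nrm (A - A') * nsq x ≤ (Fintype.card ι : ℝ) ^ (1 - 2 / p) * nrm (A - A') := by
    rw [mul_comm]
    exact mul_le_mul_of_nonneg_right h3 (nrm_nonneg _)
  have h6 : |t| * (nrm (g - g') * nrm x) ≤
      |t| * (Fintype.card ι : ℝ) ^ (1 / 2 - 1 / p) * nrm (g - g') := by
    rw [mul_assoc]
    apply mul_le_mul_of_nonneg_left _ (abs_nonneg _)
    rw [mul_comm]
    exact mul_le_mul_of_nonneg_right h4 (nrm_nonneg _)
  have h7 : Q A x + t * ∑ a, g a * x a - (Q A' x + t * ∑ a, g' a * x a) =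
      (Q A x - Q A' x) + (t * ∑ a, g a * x a - t * ∑ a, g' a * x a) := by ring
  rw [h7]
  refine (abs_add_le _ _).trans ?_
  linarith

theorem VV_zero (A : ι × ι → ℝ) (g : ι → ℝ) : VV p 0 A g = LL p A := by
  unfold VV LL
  congr 1
  funext x
  simp

theorem nrm_zero' {V : Type} [Fintype V] : nrm (0 : V → ℝ) = 0 := by
  simp [nrm, nsq]

theorem LL_lip (hp : 2 < p) : Lip ((Fintype.card ι : ℝ) ^ (1 - 2 / p)) (LL p (ι := ι)) := by
  intro A A'
  have := VV_joint hp 0 A A' (0 : ι → ℝ) 0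
  simpa [VV_zero] using this

theorem VV_lip (hp : 2 < p) (t : ℝ) (A : ι × ι → ℝ) :
    Lip (|t| * (Fintype.card ι : ℝ) ^ (1 / 2 - 1 / p)) (VV p t A) := by
  intro g g'
  have := VV_joint hp t A A g g'
  simpa [nrm_zero'] using this

theorem Lip.mono {V : Type} [Fintype V] {L L' : ℝ} {f : (V → ℝ) → ℝ} (h : Lip L f)
    (hL : L ≤ L') : Lip L' f := fun x y =>
  (h x y).trans (mul_le_mul_of_nonneg_right hL (nrm_nonneg _))

theorem Lip.integrable {V : Type} [Fintype V] {L : ℝ} {f : (V → ℝ) → ℝ} (h : Lip L f) :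
    Integrable f (gam V) := by
  have h1 : Lip (|L| + 1) f := Lip.mono h (by linarith [le_abs_self L])
  exact (Pool.Agent.H320R2.LD.prove_MGF V f (|L| + 1) (by positivity) h1).1

theorem Lip.continuous {V : Type} [Fintype V] {L : ℝ} {f : (V → ℝ) → ℝ} (h : Lip L f) :
    Continuous f := by
  have h1 : Lip |L| f := Lip.mono h (le_abs_self L)
  exact Pool.Agent.H320R2.LD.MGF.lip_continuous (abs_nonneg _) h1

theorem LL_int (hp : 2 < p) : Integrable (LL p (ι := ι)) (gam (ι × ι)) := Lip.integrable (LL_lip hp)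

theorem VV_int (hp : 2 < p) (t : ℝ) (A : ι × ι → ℝ) : Integrable (VV p t A) (gam ι) :=
  Lip.integrable (VV_lip hp t A)

theorem nrm_inl {α β : Type} [Fintype α] [Fintype β] (w : α ⊕ β → ℝ) :
    nrm (fun a => w (Sum.inl a)) ≤ nrm w := by
  unfold nrm nsq
  apply Real.sqrt_le_sqrt
  rw [Fintype.sum_sum_type]
  have : 0 ≤ ∑ b, w (Sum.inr b) ^ 2 := Finset.sum_nonneg fun _ _ => sq_nonneg _
  linarith

theorem nrm_inr {α β : Type} [Fintype α] [Fintype β] (w : α ⊕ β → ℝ) :
    nrm (fun a => w (Sum.inr a)) ≤ nrm w := by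
  unfold nrm nsq
  apply Real.sqrt_le_sqrt
  rw [Fintype.sum_sum_type]
  have : 0 ≤ ∑ b, w (Sum.inl b) ^ 2 := Finset.sum_nonneg fun _ _ => sq_nonneg _
  linarith

theorem VV_lip_joint (hp : 2 < p) (t : ℝ) :
    Lip ((Fintype.card ι : ℝ) ^ (1 - 2 / p) + |t| * (Fintype.card ι : ℝ) ^ (1 / 2 - 1 / p))
      (fun w : (ι × ι) ⊕ ι → ℝ => VV p t (fun q => w (Sum.inl q)) (fun a => w (Sum.inr a))) := by
  intro w w'
  refine (VV_joint hp t _ _ _ _).trans ?_
  rw [add_mul]
  apply add_le_add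
  · apply mul_le_mul_of_nonneg_left _ (by positivity)
    exact nrm_inl (w - w')
  · apply mul_le_mul_of_nonneg_left _ (by positivity)
    exact nrm_inr (w - w')

/-- the conditional mean -/
def EV (p t : ℝ) {ι : Type} [Fintype ι] (A : ι × ι → ℝ) : ℝ := ∫ g, VV p t A g ∂(gam ι)

theorem EV_lip (hp : 2 < p) (t : ℝ) : Lip ((Fintype.card ι : ℝ) ^ (1 - 2 / p)) (EV p t (ι := ι)) := by
  intro A A'
  unfold EV
  rw [← integral_sub (VV_int hp t A) (VV_int hp t A')]
  rw [← Real.norm_eq_abs]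
  refine (norm_integral_le_of_norm_le_const (C := (Fintype.card ι : ℝ) ^ (1 - 2 / p) *
    nrm (A - A')) ?_).trans ?_
  · apply Filter.Eventually.of_forall
    intro g
    have := VV_joint hp t A A' g g
    simpa [nrm_zero'] using this
  · simp

/-- coordinates -/
theorem coord_lip {V : Type} [Fintype V] (v : V) : Lip 1 (fun x : V → ℝ => x v) := by
  intro x y
  rw [one_mul]
  unfold nrm nsq
  apply Real.abs_le_sqrt
  exact Finset.single_le_sum (f := fun v => (x - y) v ^ 2) (fun _ _ => sq_nonneg _)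
    (Finset.mem_univ v)

theorem coord_int {V : Type} [Fintype V] (v : V) : Integrable (fun x : V → ℝ => x v) (gam V) :=
  Lip.integrable (coord_lip v)

theorem coord_law {V : Type} [Fintype V] (v : V) :
    MeasurePreserving (fun x : V → ℝ => x v) (gam V) (gaussianReal 0 1) :=
  measurePreserving_eval (fun _ : V => gaussianReal 0 1) v

theorem coord_mean {V : Type} [Fintype V] (v : V) : ∫ x, x v ∂(gam V) = 0 := by
  have h1 : ∫ x, x v ∂(gam V) = ∫ y, y ∂(gaussianReal 0 1) := by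
    rw [← (coord_law v).map_eq, integral_map (coord_law v).measurable.aemeasurable (by fun_prop)]
  rw [h1, integral_id_gaussianReal]

theorem lin_int {V : Type} [Fintype V] (c : V → ℝ) :
    Integrable (fun x : V → ℝ => ∑ v, x v * c v) (gam V) :=
  integrable_finsetSum _ fun v _ => (coord_int v).mul_const _

theorem lin_mean {V : Type} [Fintype V] (c : V → ℝ) : ∫ x, (∑ v, x v * c v) ∂(gam V) = 0 := by
  rw [integral_finsetSum _ fun v _ => (coord_int v).mul_const _]
  apply Finset.sum_eq_zero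
  intro v _
  rw [integral_mul_const, coord_mean, zero_mul]

theorem LL_le_EV (hp : 2 < p) (t : ℝ) (A : ι × ι → ℝ) : LL p A ≤ EV p t A := by
  have hp0 : 0 < p := by linarith
  obtain ⟨x, hx, h1, _⟩ := exists_mx hp0 (Q_cont A)
  unfold EV
  have h2 : LL p A = ∫ g, (Q A x + t * ∑ a, g a * x a) ∂(gam ι) := by
    rw [integral_add (integrable_const _) ((lin_int x).const_mul _), integral_const,
      integral_const_mul, lin_mean]
    simp only [probReal_univ, smul_eq_mul, one_mul, mul_zero, add_zero]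
    exact h1
  rw [h2]
  apply integral_mono ((integrable_const _).add ((lin_int x).const_mul _)) (VV_int hp t A)
  intro g
  exact le_mx hp0 (VV_cont_x t A g) hx

section Minor

variable [DecidableEq ι]

theorem ext_zero (hp0 : 0 < p) (i : ι) (x : {j // j ≠ i} → ℝ) (hx : x ∈ BB p {j // j ≠ i}) :
    ∃ z ∈ BB p ι, z i = 0 ∧ ∀ j : {j // j ≠ i}, z j.1 = x j := by
  refine ⟨fun j => if h : j ≠ i then x ⟨j, h⟩ else 0, ?_, by simp, ?_⟩
  · show ps p _ ≤ 1
    rw [ps_split _ i]
    simp only [ne_eq, not_true_eq_false, dite_false, abs_zero, Real.zero_rpow hp0.ne', add_zero]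
    have : (fun j : {j // j ≠ i} => if h : ¬ (j.1 = i) then x ⟨j.1, h⟩ else 0) = x := by
      funext j
      simp [j.2]
    rw [this]
    exact hx
  · intro j
    simp [j.2]

theorem VV_mono (hp : 2 < p) (t : ℝ) (A : ι × ι → ℝ) (g : ι → ℝ) (i : ι) :
    VV p t (Ak A i) (fun j => g j.1) ≤ VV p t A g := by
  have hp0 : 0 < p := by linarith
  unfold VV
  apply mx_le hp0
  intro x hx
  obtain ⟨z, hz, h1, h2⟩ := ext_zero hp0 i x hx
  have h3 := le_mx hp0 (VV_cont_x t A g) hz
  rw [Q_split A z i, Fintype.sum_eq_add_sum_subtype_ne _ i, h1] at h3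
  simp only [h2] at h3
  simpa using h3

theorem EV_mono (hp : 2 < p) (t : ℝ) (A : ι × ι → ℝ) (i : ι) :
    EV p t (Ak A i) ≤ EV p t A := by
  unfold EV
  have h1 := inj_map (V := ι) (α := {j // j ≠ i}) (fun j => j.1) Subtype.val_injective
  have h2 : ∫ g, VV p t (Ak A i) g ∂(gam {j // j ≠ i}) =
      ∫ g, VV p t (Ak A i) (fun j => g j.1) ∂(gam ι) := by
    rw [← h1.map_eq, integral_map h1.measurable.aemeasurable]
    exact (Lip.continuous (VV_lip hp t (Ak A i))).aestronglyMeasurable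
  rw [h2]
  apply integral_mono _ (VV_int hp t A)
  · intro g
    exact VV_mono hp t A g i
  · have := (VV_int hp t (Ak A i))
    rw [← h1.map_eq] at this
    exact this.comp_measurable h1.measurable

end Minor

/-- the mean of the maximum -/
def Phi (p : ℝ) (ι : Type) [Fintype ι] : ℝ := ∫ A, LL p A ∂(gam (ι × ι))

theorem LL_reindex {κ : Type} [Fintype κ] (hp0 : 0 < p) (e : ι ≃ κ) (A : κ × κ → ℝ) :
    LL p (fun q : ι × ι => A (e q.1, e q.2)) = LL p A := by
  have key : ∀ {α β : Type} [Fintype α] [Fintype β] (f : α ≃ β) (B : β × β → ℝ),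
      LL p (fun q : α × α => B (f q.1, f q.2)) ≤ LL p B := by
    intro α β _ _ f B
    unfold LL
    apply mx_le hp0
    intro x hx
    have h1 : (fun b => x (f.symm b)) ∈ BB p β := by
      show ps p _ ≤ 1
      have h2 : ps p (fun b => x (f.symm b)) = ps p x := by
        unfold ps
        exact Equiv.sum_comp f.symm (fun a => |x a| ^ p)
      rw [h2]
      exact hx
    have h3 := le_mx hp0 (Q_cont B) h1
    have h4 : Q B (fun b => x (f.symm b)) = Q (fun q : α × α => B (f q.1, f q.2)) x := by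
      unfold Q
      rw [← Equiv.sum_comp (Equiv.prodCongr f f)]
      apply Finset.sum_congr rfl
      intro q _
      simp [Prod.map]
    rw [h4] at h3
    exact h3
  apply le_antisymm (key e A)
  have h5 := key e.symm (fun q : ι × ι => A (e q.1, e q.2))
  simpa using h5

theorem Phi_congr {κ : Type} [Fintype κ] (hp : 2 < p) (e : ι ≃ κ) : Phi p ι = Phi p κ := by
  have h1 := inj_map (V := κ × κ) (α := ι × ι) (fun q => (e q.1, e q.2)) (by
    intro q q' h
    simp only [Prod.mk.injEq, EmbeddingLike.apply_eq_iff_eq] at h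
    exact Prod.ext h.1 h.2)
  unfold Phi
  rw [← h1.map_eq, integral_map h1.measurable.aemeasurable
    (Lip.continuous (LL_lip hp)).aestronglyMeasurable]
  apply integral_congr_ae
  apply Filter.Eventually.of_forall
  intro A
  exact LL_reindex (by linarith) e A

theorem Phi_eq_fin (hp : 2 < p) : Phi p ι = Phi p (Fin (Fintype.card ι)) :=
  Phi_congr hp (Fintype.equivFin ι)

theorem LL_nonneg (hp0 : 0 < p) (A : ι × ι → ℝ) : 0 ≤ LL p A := by
  have h := le_mx hp0 (Q_cont A) (zero_BB (ι := ι) hp0)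
  have h0 : Q A 0 = 0 := by simp [Q]
  rw [h0] at h
  exact h

theorem Phi_nonneg (hp0 : 0 < p) : 0 ≤ Phi p ι := integral_nonneg fun A => LL_nonneg hp0 A

theorem Q_le_LL (hp : 2 < p) (A : ι × ι → ℝ) (z : ι → ℝ) : Q A z ≤ LL p A * (ps p z) ^ (2 / p) :=
  hom hp (fun _ hy => le_mx (by linarith) (Q_cont A) hy) z

end

end Pool.Agent.T6.H88.GP
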