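import Mathlib
import Pool.Agent.T6.H88.GP.Lipz
import Pool.Agent.R860.CG.OpNorm

set_option autoImplicit false

/-!
# Means: the upper bound, the recursion, the augmentation
-/

namespace Pool.Agent.T6.H88.GP

open MeasureTheory ProbabilityTheory
open Pool.Agent.H320R2.LD (gam nsq nrm Lip)

noncomputable section

variable {ι : Type} [Fintype ι] {p : ℝ}

theorem MP_comp {V W : Type} [Fintype V] [Fintype W] {T : (V → ℝ) → (W → ℝ)}
    (h : MeasurePreserving T (gam V) (gam W)) {f : (W → ℝ) → ℝ} (hf : Continuous f) :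
    ∫ x, f (T x) ∂(gam V) = ∫ y, f y ∂(gam W) := by
  rw [← h.map_eq, integral_map h.measurable.aemeasurable hf.aestronglyMeasurable]

theorem MP_int {V W : Type} [Fintype V] [Fintype W] {T : (V → ℝ) → (W → ℝ)}
    (h : MeasurePreserving T (gam V) (gam W)) {f : (W → ℝ) → ℝ} (hf : Integrable f (gam W)) :
    Integrable (fun x => f (T x)) (gam V) := by
  rw [← h.map_eq] at hf
  exact hf.comp_measurable h.measurable

/-! ### upper bound -/

theorem uncurry_map :
    MeasurePreserving (fun (G : ι → ι → ℝ) (q : ι × ι) => G q.1 q.2)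
      (Pool.Agent.R979.SV.mu2 ι) (gam (ι × ι)) := by
  have hm : Measurable (fun (G : ι → ι → ℝ) (q : ι × ι) => G q.1 q.2) := by
    fun_prop
  refine ⟨hm, ?_⟩
  symm
  apply Measure.pi_eq
  intro s hs
  rw [Measure.map_apply hm (MeasurableSet.univ_pi hs)]
  have h1 : (fun (G : ι → ι → ℝ) (q : ι × ι) => G q.1 q.2) ⁻¹' (Set.univ.pi s) =
      Set.univ.pi (fun i => Set.univ.pi (fun j => s (i, j))) := by
    ext G
    simp [Set.mem_pi]
  rw [h1, Measure.pi_pi]
  simp only [Measure.pi_pi]
  rw [Fintype.prod_prod_type]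

theorem Q_le_opn [DecidableEq ι] (hp : 2 < p) (G : ι → ι → ℝ) :
    LL p (fun q : ι × ι => G q.1 q.2) ≤
      Pool.Agent.R860.CG.opn G * (Fintype.card ι : ℝ) ^ (1 - 2 / p) := by
  apply mx_le (by linarith)
  intro x hx
  have h1 := Pool.Agent.R860.CG.opn_bil G x x
  have h2 := Pool.Agent.R860.CG.opn_nonneg G
  have h3 : x ⬝ᵥ (Matrix.of G).mulVec x = Q (fun q : ι × ι => G q.1 q.2) x := by
    unfold Q
    simp only [dotProduct, Matrix.mulVec, Matrix.of_apply, Finset.mul_sum]
    rw [Fintype.sum_prod_type]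
    apply Finset.sum_congr rfl
    intro a _
    apply Finset.sum_congr rfl
    intro b _
    ring
  have h4 : x ⬝ᵥ x = nsq x := by
    unfold nsq dotProduct
    apply Finset.sum_congr rfl
    intro a _
    ring
  rw [h3, h4, mul_assoc, Real.mul_self_sqrt (nsq_nonneg x)] at h1
  refine (le_abs_self _).trans (h1.trans ?_)
  exact mul_le_mul_of_nonneg_left (nsq_le_BB hp hx) h2

theorem Phi_upper [Nonempty ι] (hp : 2 < p) :
    Phi p ι ≤ 10 * (Fintype.card ι : ℝ) ^ (3 / 2 - 2 / p) := by
  classical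
  set n : ℝ := (Fintype.card ι : ℝ) with hn
  have hnpos : 0 < n := by
    rw [hn]
    exact_mod_cast Fintype.card_pos
  have hc := (Lip.continuous (LL_lip (ι := ι) hp))
  unfold Phi
  have h1 : ∫ A, LL p A ∂(gam (ι × ι)) =
      ∫ G, LL p (fun q : ι × ι => G q.1 q.2) ∂(Pool.Agent.R979.SV.mu2 ι) := by
    have h := uncurry_map (ι := ι)
    rw [← h.map_eq, integral_map h.measurable.aemeasurable hc.aestronglyMeasurable]
  rw [h1]
  rw [integral_eq_lintegral_of_nonneg_ae (Filter.Eventually.of_forall fun G =>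
    LL_nonneg (by linarith) _)]
  · apply ENNReal.toReal_le_of_le_ofReal (by positivity)
    calc ∫⁻ G, ENNReal.ofReal (LL p (fun q : ι × ι => G q.1 q.2)) ∂(Pool.Agent.R979.SV.mu2 ι)
        ≤ ∫⁻ G, ENNReal.ofReal (Pool.Agent.R860.CG.opn G) * ENNReal.ofReal (n ^ (1 - 2 / p))
          ∂(Pool.Agent.R979.SV.mu2 ι) := by
          apply lintegral_mono
          intro G
          show ENNReal.ofReal _ ≤ ENNReal.ofReal _ * ENNReal.ofReal _
          rw [← ENNReal.ofReal_mul (Pool.Agent.R860.CG.opn_nonneg G)]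
          exact ENNReal.ofReal_le_ofReal (Q_le_opn hp G)
      _ = (∫⁻ G, ENNReal.ofReal (Pool.Agent.R860.CG.opn G) ∂(Pool.Agent.R979.SV.mu2 ι)) *
          ENNReal.ofReal (n ^ (1 - 2 / p)) := by
          rw [lintegral_mul_const]
          have := Pool.Agent.R860.CG.opn_cont (ι := ι)
          exact (ENNReal.measurable_ofReal.comp this.measurable)
      _ ≤ ENNReal.ofReal (10 * √n) * ENNReal.ofReal (n ^ (1 - 2 / p)) := by
          gcongr
          exact Pool.Agent.R860.CG.opn_mean
      _ = ENNReal.ofReal (10 * n ^ (3 / 2 - 2 / p)) := by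
          rw [← ENNReal.ofReal_mul (by positivity)]
          congr 1
          rw [Real.sqrt_eq_rpow, mul_assoc, ← Real.rpow_add hnpos]
          congr 2
          ring
  · have hm : Continuous (fun (G : ι → ι → ℝ) (q : ι × ι) => G q.1 q.2) := by
      fun_prop
    exact (hc.comp hm).aestronglyMeasurable

/-! ### recursion -/

theorem sq_law_int {V : Type} [Fintype V] (v : V) :
    Integrable (fun x : V → ℝ => x v ^ 2) (gam V) := by
  have h1 : Integrable (fun y : ℝ => y ^ 2) (gaussianReal 0 1) :=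
    (memLp_id_gaussianReal (μ := 0) (v := 1) 2).integrable_sq
  rw [← (coord_law v).map_eq] at h1
  exact h1.comp_measurable (coord_law v).measurable

theorem sq_law {V : Type} [Fintype V] (v : V) : ∫ x, x v ^ 2 ∂(gam V) = 1 := by
  have h1 : ∫ x, x v ^ 2 ∂(gam V) = ∫ y, y ^ 2 ∂(gaussianReal 0 1) := by
    rw [← (coord_law v).map_eq, integral_map (coord_law v).measurable.aemeasurable (by fun_prop)]
  rw [h1]
  have h2 := variance_id_gaussianReal (μ := 0) (v := 1)
  rw [variance_of_integral_eq_zero (by fun_prop) (by simp)] at h2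
  simpa using h2

theorem recur_pt [DecidableEq ι] (hp : 2 < p) (A : ι × ι → ℝ) :
    ((Fintype.card ι : ℝ) - 2) * LL p A ≤ (∑ i, LL p (Ak A i)) +
      (Fintype.card ι : ℝ) ^ (1 - 2 / p) * (√(Fintype.card ι) / 2 *
        (1 + (∑ b, A (b, b) ^ 2) / Fintype.card ι)) := by
  have hp0 : 0 < p := by linarith
  rcases isEmpty_or_nonempty ι with he | he
  · have h0 : LL p A = 0 := by
      obtain ⟨x, hx, h1, _⟩ := exists_mx hp0 (Q_cont A)
      rw [LL, h1]
      simp [Q]
    rw [h0]
    simp
  set n : ℝ := (Fintype.card ι : ℝ) with hn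
  have hnpos : 0 < n := by
    rw [hn]
    exact_mod_cast Fintype.card_pos
  obtain ⟨x, hx, h1, _⟩ := exists_mx hp0 (Q_cont A)
  have h2 : ∀ i, Q (Ak A i) (fun j => x j.1) ≤ LL p (Ak A i) := by
    intro i
    apply le_mx hp0 (Q_cont _)
    have h3 : ps p x ≤ 1 := hx
    rw [ps_split x i] at h3
    have : 0 ≤ |x i| ^ p := Real.rpow_nonneg (abs_nonneg _) _
    show ps p _ ≤ 1
    linarith
  set D := ∑ i, A (i, i) * x i ^ 2 with hD
  have h3 : ∑ i, Q (Ak A i) (fun j => x j.1) = (n - 2) * Q A x + D := by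
    have h4 : ∀ i, Q (Ak A i) (fun j => x j.1) = Q A x -
        ((∑ j, A (i, j) * (x i * x j)) + (∑ j, A (j, i) * (x j * x i))) + A (i, i) * x i ^ 2 := by
      intro i
      rw [Q_split A x i]
      rw [Fintype.sum_eq_add_sum_subtype_ne _ i, Fintype.sum_eq_add_sum_subtype_ne _ i,
        Finset.mul_sum]
      have h5 : ∑ j : {j // j ≠ i}, x i * ((A (i, j.1) + A (j.1, i)) * x j.1) =
          ∑ j : {j // j ≠ i}, A (i, j.1) * (x i * x j.1) +
            ∑ j : {j // j ≠ i}, A (j.1, i) * (x j.1 * x i) := by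
        rw [← Finset.sum_add_distrib]
        apply Finset.sum_congr rfl
        intro j _
        ring
      rw [h5]
      ring
    simp only [h4]
    rw [Finset.sum_add_distrib, Finset.sum_sub_distrib, Finset.sum_add_distrib, Finset.sum_const,
      Finset.card_univ, nsmul_eq_mul, ← hn, ← hD]
    have h6 : ∑ i, ∑ j, A (i, j) * (x i * x j) = Q A x := by
      unfold Q
      rw [Fintype.sum_prod_type]
    have h7 : ∑ i, ∑ j, A (j, i) * (x j * x i) = Q A x := by
      rw [← h6]
      exact Finset.sum_comm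
    rw [h6, h7]
    ring
  have h4 : (n - 2) * Q A x + D ≤ ∑ i, LL p (Ak A i) := by
    rw [← h3]
    exact Finset.sum_le_sum fun i _ => h2 i
  have h5 : -D ≤ n ^ (1 - 2 / p) * (√n / 2 * (1 + (∑ b, A (b, b) ^ 2) / n)) := by
    have h6 : ∀ i, -(A (i, i)) ≤ √n / 2 * (1 + (∑ b, A (b, b) ^ 2) / n) := by
      intro i
      have h7 : A (i, i) ^ 2 ≤ ∑ b, A (b, b) ^ 2 :=
        Finset.single_le_sum (f := fun b => A (b, b) ^ 2) (fun _ _ => sq_nonneg _)
          (Finset.mem_univ i)
      have h8 : √n * √n = n := Real.mul_self_sqrt hnpos.le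
      have h9 : 0 < √n := Real.sqrt_pos.mpr hnpos
      have h10 : -(A (i, i)) ≤ √n / 2 * (1 + A (i, i) ^ 2 / n) := by
        have h11 : 0 ≤ (√n + A (i, i)) ^ 2 / (2 * √n) := by positivity
        have h12 : (√n + A (i, i)) ^ 2 / (2 * √n) = √n / 2 * (1 + A (i, i) ^ 2 / n) + A (i, i) := by
          have key : ∀ r a : ℝ, 0 < r → (r + a) ^ 2 / (2 * r) =
              r / 2 * (1 + a ^ 2 / (r * r)) + a := by
            intro r a hr
            field_simp
            ring
          have h13 := key (√n) (A (i, i)) h9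
          rw [h8] at h13
          exact h13
        linarith
      refine h10.trans ?_
      gcongr
    have hb0 : 0 ≤ √n / 2 * (1 + (∑ b, A (b, b) ^ 2) / n) := by
      have : 0 ≤ ∑ b, A (b, b) ^ 2 := Finset.sum_nonneg fun _ _ => sq_nonneg _
      positivity
    have h7 : -D ≤ (√n / 2 * (1 + (∑ b, A (b, b) ^ 2) / n)) * nsq x := by
      rw [hD, ← Finset.sum_neg_distrib]
      unfold nsq
      rw [Finset.mul_sum]
      apply Finset.sum_le_sum
      intro i _
      rw [← neg_mul]
      exact mul_le_mul_of_nonneg_right (h6 i) (sq_nonneg _)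
    refine h7.trans ?_
    rw [mul_comm (n ^ (1 - 2 / p))]
    exact mul_le_mul_of_nonneg_left (nsq_le_BB hp hx) hb0
  rw [LL, h1]
  linarith

theorem Ak_map [DecidableEq ι] (i : ι) :
    MeasurePreserving (fun A : ι × ι → ℝ => Ak A i) (gam (ι × ι))
      (gam ({j // j ≠ i} × {j // j ≠ i})) :=
  inj_map (V := ι × ι) (α := {j // j ≠ i} × {j // j ≠ i}) (fun q => (q.1.1, q.2.1)) (by
    intro q q' h
    simp only [Prod.mk.injEq] at h
    exact Prod.ext (Subtype.ext h.1) (Subtype.ext h.2))

/-- the mean in dimension `m` -/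
def ph (p : ℝ) (m : ℕ) : ℝ := Phi p (Fin m)

theorem Phi_ph (hp : 2 < p) {m : ℕ} (h : Fintype.card ι = m) : Phi p ι = ph p m := by
  subst h
  exact Phi_eq_fin hp

theorem recur (hp : 2 < p) (m : ℕ) :
    ((m : ℝ) + 1 - 2) * ph p (m + 1) ≤ ((m : ℝ) + 1) * ph p m +
      ((m : ℝ) + 1) ^ (3 / 2 - 2 / p) := by
  have hc := Lip.continuous (LL_lip (ι := Fin (m + 1)) hp)
  have h1 : ∀ A : Fin (m + 1) × Fin (m + 1) → ℝ, _ := fun A => recur_pt hp A
  simp only [Fintype.card_fin] at h1
  push_cast at h1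
  set n : ℝ := (m : ℝ) + 1 with hn
  have hnpos : 0 < n := by positivity
  have i1 : Integrable (fun A : Fin (m + 1) × Fin (m + 1) → ℝ => (n - 2) * LL p A)
      (gam (Fin (m + 1) × Fin (m + 1))) := (LL_int hp).const_mul _
  have i2 : ∀ i, Integrable (fun A : Fin (m + 1) × Fin (m + 1) → ℝ => LL p (Ak A i))
      (gam (Fin (m + 1) × Fin (m + 1))) := fun i => MP_int (Ak_map i) (LL_int hp)
  have i3 : Integrable (fun A : Fin (m + 1) × Fin (m + 1) → ℝ => ∑ i, LL p (Ak A i))
      (gam (Fin (m + 1) × Fin (m + 1))) := integrable_finsetSum _ fun i _ => i2 i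
  have i4 : Integrable (fun A : Fin (m + 1) × Fin (m + 1) → ℝ => ∑ b, A (b, b) ^ 2)
      (gam (Fin (m + 1) × Fin (m + 1))) := integrable_finsetSum _ fun i _ => sq_law_int _
  have i5 : Integrable (fun A : Fin (m + 1) × Fin (m + 1) → ℝ =>
      n ^ (1 - 2 / p) * (√n / 2 * (1 + (∑ b, A (b, b) ^ 2) / n)))
      (gam (Fin (m + 1) × Fin (m + 1))) :=
    (((integrable_const _).add (i4.div_const _)).const_mul _).const_mul _
  have h2 := integral_mono i1 (i3.add i5) h1
  rw [integral_const_mul] at h2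
  simp only [Pi.add_apply] at h2
  rw [integral_add i3 i5, integral_finsetSum _ fun i _ => i2 i, integral_const_mul,
    integral_const_mul, integral_add (integrable_const _) (i4.div_const _), integral_div,
    integral_finsetSum _ fun i _ => sq_law_int _] at h2
  simp only [sq_law] at h2
  have h3 : ∀ i : Fin (m + 1), ∫ A, LL p (Ak A i) ∂(gam (Fin (m + 1) × Fin (m + 1))) = ph p m := by
    intro i
    rw [MP_comp (Ak_map i) (Lip.continuous (LL_lip hp))]
    apply Phi_ph hp
    simp
  simp only [h3] at h2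
  simp only [Finset.sum_const, Finset.card_univ, Fintype.card_fin, nsmul_eq_mul, integral_const,
    probReal_univ, smul_eq_mul, mul_one] at h2
  push_cast at h2
  rw [← hn, div_self hnpos.ne'] at h2
  have h4 : n ^ (1 - 2 / p) * (√n / 2 * (1 + 1)) = n ^ (3 / 2 - 2 / p) := by
    rw [show √n / 2 * (1 + 1) = √n by ring, Real.sqrt_eq_rpow, ← Real.rpow_add hnpos]
    congr 1
    ring
  rw [h4] at h2
  exact h2

/-! ### augmentation -/

/-- the family used in the augmentation -/
def uu (ι : Type) [DecidableEq ι] (k : ℕ) : (ι × ι) ⊕ ι → (ι ⊕ Fin k) × (ι ⊕ Fin k) → ℝ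
  | .inl (a, b), (.inl a', .inl b') => if a' = a ∧ b' = b then 1 else 0
  | .inr a, (.inr _, .inl b) => if b = a then (√(2 * k))⁻¹ else 0
  | .inr a, (.inl b, .inr _) => if b = a then (√(2 * k))⁻¹ else 0
  | _, _ => 0

theorem uu_orth [DecidableEq ι] (k : ℕ) (hk : 0 < k) (α β : (ι × ι) ⊕ ι) :
    ∑ q, uu ι k α q * uu ι k β q = if α = β then 1 else 0 := by
  have hk0 : (0 : ℝ) < k := by exact_mod_cast hk
  have hs : (√(2 * k : ℝ))⁻¹ * (√(2 * k : ℝ))⁻¹ = (2 * (k : ℝ))⁻¹ := by
    rw [← mul_inv, Real.mul_self_sqrt (by positivity)]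
  rw [Fintype.sum_prod_type]
  simp only [Fintype.sum_sum_type]
  rcases α with ⟨a, b⟩ | a <;> rcases β with ⟨c, d⟩ | c
  · simp only [uu, mul_zero, Finset.sum_const_zero, add_zero, Sum.inl.injEq, Prod.mk.injEq,
      mul_ite, mul_one]
    by_cases h : a = c ∧ b = d
    · obtain ⟨rfl, rfl⟩ := h
      simp only [and_self, if_true]
      rw [Finset.sum_eq_single a]
      · simp
      · intro x _ hx
        simp [hx]
      · simp
    · rw [if_neg h]
      apply Finset.sum_eq_zero
      intro x _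
      apply Finset.sum_eq_zero
      intro y _
      by_cases h1 : x = c ∧ y = d
      · rw [if_pos h1, if_neg]
        rintro ⟨h2, h3⟩
        exact h ⟨h2.symm.trans h1.1, h3.symm.trans h1.2⟩
      · rw [if_neg h1]
  · simp [uu]
  · simp [uu]
  · simp only [uu, mul_zero, Finset.sum_const_zero, add_zero, zero_add, Sum.inr.injEq]
    by_cases h : a = c
    · subst h
      simp only [if_true]
      have h1 : ∀ x : ι, ((if x = a then (√(2 * k : ℝ))⁻¹ else 0) *
          (if x = a then (√(2 * k : ℝ))⁻¹ else 0)) = if x = a then (2 * (k : ℝ))⁻¹ else 0 := by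
        intro x
        by_cases hx : x = a
        · simp only [hx, if_true, hs]
        · simp [hx]
      simp only [h1, Finset.sum_const, Finset.card_univ, Fintype.card_fin, nsmul_eq_mul]
      rw [← Finset.mul_sum, Finset.sum_ite_eq']
      simp only [Finset.mem_univ, if_true]
      field_simp
      norm_num
    · rw [if_neg h]
      have h1 : ∀ x : ι, ((if x = a then (√(2 * k : ℝ))⁻¹ else 0) *
          (if x = c then (√(2 * k : ℝ))⁻¹ else 0)) = 0 := by
        intro x
        by_cases hx : x = a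
        · have : x ≠ c := fun h2 => h (hx.symm.trans h2)
          simp [this]
        · simp [hx]
      simp only [h1, Finset.sum_const_zero, add_zero]

end

end Pool.Agent.T6.H88.GP
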