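import Mathlib
import Pool.Agent.T6.H88.GP.Mean

set_option autoImplicit false

/-!
# The augmentation and the mean excess
-/

namespace Pool.Agent.T6.H88.GP

open MeasureTheory ProbabilityTheory
open Pool.Agent.H320R2.LD (gam nsq nrm Lip)

noncomputable section

variable {ι : Type} [Fintype ι] {p : ℝ}

/-- the law of the augmented matrix -/
def TT [DecidableEq ι] (k : ℕ) (w : (ι ⊕ Fin k) × (ι ⊕ Fin k) → ℝ) : (ι × ι) ⊕ ι → ℝ :=
  fun a => ∑ v, uu ι k a v * w v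

theorem TT_map [DecidableEq ι] (k : ℕ) (hk : 0 < k) :
    MeasurePreserving (TT (ι := ι) k) (gam ((ι ⊕ Fin k) × (ι ⊕ Fin k))) (gam ((ι × ι) ⊕ ι)) :=
  orth_map (uu ι k) (uu_orth k hk)

theorem TT_inl [DecidableEq ι] (k : ℕ) (w : (ι ⊕ Fin k) × (ι ⊕ Fin k) → ℝ) (a b : ι) :
    TT k w (Sum.inl (a, b)) = w (Sum.inl a, Sum.inl b) := by
  unfold TT
  simp only [Fintype.sum_prod_type, Fintype.sum_sum_type, uu, zero_mul, Finset.sum_const_zero,
    add_zero, ite_mul, one_mul]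
  rw [Finset.sum_eq_single a]
  · simp
  · intro x _ hx
    simp [hx]
  · simp

theorem TT_inr [DecidableEq ι] (k : ℕ) (w : (ι ⊕ Fin k) × (ι ⊕ Fin k) → ℝ) (a : ι) :
    TT k w (Sum.inr a) = (√(2 * k : ℝ))⁻¹ *
      (∑ j, w (Sum.inl a, Sum.inr j) + ∑ j, w (Sum.inr j, Sum.inl a)) := by
  unfold TT
  simp only [Fintype.sum_prod_type, Fintype.sum_sum_type, uu, zero_mul, Finset.sum_const_zero,
    add_zero, zero_add, ite_mul, Finset.sum_ite_eq', Finset.mem_univ, if_true]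
  rw [mul_add, Finset.mul_sum, Finset.mul_sum]
  congr 1
  rw [Finset.sum_eq_single a]
  · simp
  · intro x _ hx
    simp [hx]
  · simp

/-- the coefficients of the new block -/
def cR (ι : Type) (k : ℕ) (τ : ℝ) : (ι ⊕ Fin k) × (ι ⊕ Fin k) → ℝ
  | (.inr _, .inr _) => τ * τ
  | _ => 0

theorem aug_id [DecidableEq ι] (k : ℕ) (hk : 0 < k) (τ : ℝ)
    (w : (ι ⊕ Fin k) × (ι ⊕ Fin k) → ℝ) (x : ι → ℝ) :
    Q w (Sum.elim x (fun _ => τ)) = Q (fun q => TT k w (Sum.inl q)) x +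
      (τ * √(2 * k : ℝ)) * (∑ a, TT k w (Sum.inr a) * x a) + ∑ v, w v * cR ι k τ v := by
  have hk0 : (0 : ℝ) < k := by exact_mod_cast hk
  have hs : 0 < √(2 * k : ℝ) := Real.sqrt_pos.mpr (by positivity)
  unfold Q
  simp only [Fintype.sum_prod_type, Fintype.sum_sum_type, Sum.elim_inl, Sum.elim_inr, TT_inl,
    TT_inr, cR, mul_zero, Finset.sum_const_zero, zero_add]
  rw [Finset.sum_add_distrib, Finset.sum_add_distrib]
  have h1 : (τ * √(2 * k : ℝ)) * (∑ a, (√(2 * k : ℝ))⁻¹ *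
      (∑ j, w (Sum.inl a, Sum.inr j) + ∑ j, w (Sum.inr j, Sum.inl a)) * x a) =
      ∑ a, ∑ j, w (Sum.inl a, Sum.inr j) * (x a * τ) +
        ∑ j, ∑ a, w (Sum.inr j, Sum.inl a) * (τ * x a) := by
    rw [Finset.sum_comm (s := Finset.univ (α := Fin k)), ← Finset.sum_add_distrib,
      Finset.mul_sum]
    apply Finset.sum_congr rfl
    intro a _
    have h2 : τ * √(2 * k : ℝ) * ((√(2 * k : ℝ))⁻¹ *
        (∑ j, w (Sum.inl a, Sum.inr j) + ∑ j, w (Sum.inr j, Sum.inl a)) * x a) =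
        (√(2 * k : ℝ) * (√(2 * k : ℝ))⁻¹) * (τ * x a *
        (∑ j, w (Sum.inl a, Sum.inr j) + ∑ j, w (Sum.inr j, Sum.inl a))) := by ring
    rw [h2, mul_inv_cancel₀ hs.ne', one_mul, mul_add, Finset.mul_sum, Finset.mul_sum]
    congr 1
    · apply Finset.sum_congr rfl
      intro j _
      ring
    · apply Finset.sum_congr rfl
      intro j _
      ring
  rw [h1]
  ring

theorem ps_elim (k : ℕ) (x : ι → ℝ) (τ : ℝ) (hτ : 0 ≤ τ) :
    ps p (Sum.elim x (fun _ : Fin k => τ)) = ps p x + k * τ ^ p := by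
  unfold ps
  rw [Fintype.sum_sum_type]
  simp [abs_of_nonneg hτ]

theorem aug_pt [DecidableEq ι] [Nonempty ι] (hp : 2 < p) (k : ℕ) (hk : 0 < k)
    (w : (ι ⊕ Fin k) × (ι ⊕ Fin k) → ℝ) :
    VV p ((Fintype.card ι : ℝ) ^ (-(1 / p)) * √(2 * k : ℝ)) (fun q => TT k w (Sum.inl q))
      (fun a => TT k w (Sum.inr a)) +
        ∑ v, w v * cR ι k ((Fintype.card ι : ℝ) ^ (-(1 / p))) v ≤
      (1 + k / (Fintype.card ι : ℝ)) ^ (2 / p) * LL p w := by
  have hp0 : 0 < p := by linarith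
  set n : ℝ := (Fintype.card ι : ℝ) with hn
  have hnpos : 0 < n := by
    rw [hn]
    exact_mod_cast Fintype.card_pos
  set τ := n ^ (-(1 / p)) with hτ
  have hτ0 : 0 < τ := Real.rpow_pos_of_pos hnpos _
  have hτp : τ ^ p = n⁻¹ := by
    rw [hτ, ← Real.rpow_mul hnpos.le, show -(1 / p) * p = -1 by field_simp, Real.rpow_neg_one]
  suffices h : VV p (τ * √(2 * k : ℝ)) (fun q => TT k w (Sum.inl q))
      (fun a => TT k w (Sum.inr a)) ≤ (1 + k / n) ^ (2 / p) * LL p w - ∑ v, w v * cR ι k τ v by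
    linarith
  apply mx_le hp0
  intro x hx
  have h1 := aug_id k hk τ w x
  have h2 := Q_le_LL hp w (Sum.elim x (fun _ => τ))
  have h3 : ps p (Sum.elim x (fun _ : Fin k => τ)) ≤ 1 + k / n := by
    rw [ps_elim k x τ hτ0.le, hτp]
    have : ps p x ≤ 1 := hx
    rw [div_eq_mul_inv]
    linarith
  have h4 : (ps p (Sum.elim x (fun _ : Fin k => τ))) ^ (2 / p) ≤ (1 + k / n) ^ (2 / p) :=
    Real.rpow_le_rpow (ps_nonneg _) h3 (by positivity)
  have h5 : LL p w * (ps p (Sum.elim x (fun _ : Fin k => τ))) ^ (2 / p) ≤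
      LL p w * (1 + k / n) ^ (2 / p) := mul_le_mul_of_nonneg_left h4 (LL_nonneg hp0 w)
  rw [h1] at h2
  linarith

theorem VV_cont (hp : 2 < p) (t : ℝ) :
    Continuous (fun r : (ι × ι → ℝ) × (ι → ℝ) => VV p t r.1 r.2) := by
  have h1 := Lip.continuous (VV_lip_joint (ι := ι) hp t)
  have h2 : Continuous (fun r : (ι × ι → ℝ) × (ι → ℝ) => (Sum.elim r.1 r.2 : (ι × ι) ⊕ ι → ℝ)) := by
    apply continuous_pi
    rintro (a | a)
    · exact (continuous_apply a).comp continuous_fst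
    · exact (continuous_apply a).comp continuous_snd
  exact h1.comp h2

theorem EV_int (hp : 2 < p) (t : ℝ) : Integrable (EV p t (ι := ι)) (gam (ι × ι)) :=
  Lip.integrable (EV_lip hp t)

theorem VV_EV (hp : 2 < p) (t : ℝ) :
    ∫ w, VV p t (fun q => w (Sum.inl q)) (fun a => w (Sum.inr a)) ∂(gam ((ι × ι) ⊕ ι)) =
      ∫ A, EV p t A ∂(gam (ι × ι)) := by
  have h1 := sum_map (α := ι × ι) (β := ι)
  have h2 : ∫ w, VV p t (fun q => w (Sum.inl q)) (fun a => w (Sum.inr a)) ∂(gam ((ι × ι) ⊕ ι)) =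
      ∫ r, VV p t r.1 r.2 ∂((gam (ι × ι)).prod (gam ι)) := by
    rw [← h1.map_eq, integral_map h1.measurable.aemeasurable]
    exact (VV_cont hp t).aestronglyMeasurable
  have h3 : Integrable (fun r : (ι × ι → ℝ) × (ι → ℝ) => VV p t r.1 r.2)
      ((gam (ι × ι)).prod (gam ι)) := by
    rw [← h1.integrable_comp (VV_cont hp t).aestronglyMeasurable]
    exact Lip.integrable (VV_lip_joint (ι := ι) hp t)
  rw [h2, integral_prod _ h3]
  rfl

theorem aug_mean [Nonempty ι] (hp : 2 < p) (k : ℕ) (hk : 0 < k) :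
    ∫ A, EV p ((Fintype.card ι : ℝ) ^ (-(1 / p)) * √(2 * k : ℝ)) A ∂(gam (ι × ι)) ≤
      (1 + k / (Fintype.card ι : ℝ)) ^ (2 / p) * Phi p (ι ⊕ Fin k) := by
  classical
  set t := (Fintype.card ι : ℝ) ^ (-(1 / p)) * √(2 * k : ℝ) with ht
  rw [← VV_EV hp t]
  have hL := VV_lip_joint (ι := ι) hp t
  have h1 := TT_map (ι := ι) k hk
  have h2 := MP_comp h1 (Lip.continuous hL)
  rw [← h2]
  have i1 := MP_int h1 (Lip.integrable hL)
  have i2 := lin_int (cR ι k ((Fintype.card ι : ℝ) ^ (-(1 / p))))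
  have i3 : Integrable (fun w : (ι ⊕ Fin k) × (ι ⊕ Fin k) → ℝ =>
      (1 + k / (Fintype.card ι : ℝ)) ^ (2 / p) * LL p w)
      (gam ((ι ⊕ Fin k) × (ι ⊕ Fin k))) := (LL_int hp).const_mul _
  have h3 := integral_mono (i1.add i2) i3 (fun w => aug_pt hp k hk w)
  simp only [Pi.add_apply] at h3
  rw [integral_add i1 i2, lin_mean, add_zero, integral_const_mul] at h3
  exact h3

end

end Pool.Agent.T6.H88.GP
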