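import Mathlib
import Pool.Agent.T6.H88.GP.Aug

set_option autoImplicit false

/-!
# The mean excess is at most `60 k n^(1/2-2/p)`
-/

namespace Pool.Agent.T6.H88.GP

open MeasureTheory ProbabilityTheory
open Pool.Agent.H320R2.LD (gam nsq nrm Lip)

noncomputable section

variable {ι : Type} [Fintype ι] {p : ℝ}

theorem ph_nonneg (hp : 2 < p) (m : ℕ) : 0 ≤ ph p m := Phi_nonneg (by linarith)

theorem ph_upper (hp : 2 < p) (m : ℕ) : ph p (m + 1) ≤ 10 * ((m : ℝ) + 1) ^ (3 / 2 - 2 / p) := by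
  have := Phi_upper (ι := Fin (m + 1)) hp
  simpa [ph] using this

theorem ph_step (hp : 2 < p) (m : ℕ) :
    ph p (m + 1) - ph p m ≤ 21 * ((m : ℝ) + 1) ^ (1 / 2 - 2 / p) := by
  have h1 := recur hp m
  have h2 := ph_upper hp m
  set n : ℝ := (m : ℝ) + 1 with hn
  have hnpos : 0 < n := by positivity
  have h3 : n ^ (3 / 2 - 2 / p) = n * n ^ (1 / 2 - 2 / p) := by
    rw [show (3 / 2 - 2 / p : ℝ) = 1 + (1 / 2 - 2 / p) by ring, Real.rpow_add hnpos,
      Real.rpow_one]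
  rw [h3] at h1 h2
  have h4 : n * (ph p (m + 1) - ph p m) ≤ n * (21 * n ^ (1 / 2 - 2 / p)) := by
    nlinarith
  exact le_of_mul_le_mul_left h4 hnpos

theorem pow_comp (hp : 2 < p) {n m : ℝ} (hn : 0 < n) (h1 : n ≤ m) (h2 : m ≤ 2 * n) :
    m ^ (1 / 2 - 2 / p) ≤ 10 / 7 * n ^ (1 / 2 - 2 / p) := by
  have hm : 0 < m := lt_of_lt_of_le hn h1
  have hn0 : 0 < n ^ (1 / 2 - 2 / p) := Real.rpow_pos_of_pos hn _
  rcases le_or_gt 0 (1 / 2 - 2 / p) with h | h
  · have h3 : m ^ (1 / 2 - 2 / p) ≤ (2 * n) ^ (1 / 2 - 2 / p) := Real.rpow_le_rpow hm.le h2 h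
    rw [Real.mul_rpow (by norm_num) hn.le] at h3
    have h4 : (2 : ℝ) ^ (1 / 2 - 2 / p) ≤ 2 ^ (1 / 2 : ℝ) := by
      apply Real.rpow_le_rpow_of_exponent_le (by norm_num)
      have : 0 < 2 / p := by positivity
      linarith
    have h5 : (2 : ℝ) ^ (1 / 2 : ℝ) ≤ 10 / 7 := by
      rw [← Real.sqrt_eq_rpow, Real.sqrt_le_left (by norm_num)]
      norm_num
    nlinarith
  · have h3 : m ^ (1 / 2 - 2 / p) ≤ n ^ (1 / 2 - 2 / p) :=
      Real.rpow_le_rpow_of_nonpos hn h1 h.le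
    nlinarith

theorem ph_incr (hp : 2 < p) (n : ℕ) (hn : 0 < n) (k : ℕ) (hk : k ≤ n) :
    ph p (n + k) - ph p n ≤ 30 * k * (n : ℝ) ^ (1 / 2 - 2 / p) := by
  have hn0 : (0 : ℝ) < n := by exact_mod_cast hn
  induction k with
  | zero => simp
  | succ k ih =>
    have h1 := ih (by omega)
    have h2 := ph_step hp (n + k)
    have h3 : ((n + k : ℕ) : ℝ) + 1 ≤ 2 * n := by
      have : n + k + 1 ≤ 2 * n := by omega
      exact_mod_cast this
    have h4 : (n : ℝ) ≤ ((n + k : ℕ) : ℝ) + 1 := by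
      have : n ≤ n + k + 1 := by omega
      exact_mod_cast this
    have h5 := pow_comp hp hn0 h4 h3
    rw [show n + (k + 1) = n + k + 1 by ring]
    push_cast at h1 h2 h5 ⊢
    nlinarith

theorem excess_mean [Nonempty ι] (hp : 2 < p) (k : ℕ) (hk : 0 < k) (hkn : k ≤ Fintype.card ι) :
    ∫ A, (EV p ((Fintype.card ι : ℝ) ^ (-(1 / p)) * √(2 * k : ℝ)) A - LL p A) ∂(gam (ι × ι)) ≤
      60 * k * (Fintype.card ι : ℝ) ^ (1 / 2 - 2 / p) := by
  rw [integral_sub (EV_int hp _) (LL_int hp)]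
  have h1 := aug_mean (ι := ι) hp k hk
  have h2 : ∫ A, LL p A ∂(gam (ι × ι)) = ph p (Fintype.card ι) := Phi_ph hp rfl
  have h3 : Phi p (ι ⊕ Fin k) = ph p (Fintype.card ι + k) := Phi_ph hp (by simp)
  rw [h3] at h1
  rw [h2]
  have hcard : 0 < Fintype.card ι := Fintype.card_pos
  generalize Fintype.card ι = N at *
  have hn0 : (0 : ℝ) < N := by exact_mod_cast hcard
  have hk0 : (0 : ℝ) < k := by exact_mod_cast hk
  have hkN : (k : ℝ) ≤ N := by exact_mod_cast hkn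
  have h4 := ph_incr hp N hcard k hkn
  have h5 : ph p (N + k) ≤ 10 * ((N : ℝ) + k) ^ (3 / 2 - 2 / p) := by
    obtain ⟨m, hm⟩ : ∃ m, N + k = m + 1 := ⟨N + k - 1, by omega⟩
    have h6 := ph_upper hp m
    rw [← hm] at h6
    have h7 : (m : ℝ) + 1 = N + k := by exact_mod_cast hm.symm
    rw [h7] at h6
    exact h6
  have h6 : ((N : ℝ) + k) ^ (3 / 2 - 2 / p) ≤ 3 * (N : ℝ) ^ (3 / 2 - 2 / p) := by
    have hp1 : 2 / p < 1 := by
      rw [div_lt_one (by linarith)]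
      exact hp
    have h7 : ((N : ℝ) + k) ^ (3 / 2 - 2 / p) ≤ (2 * N) ^ (3 / 2 - 2 / p) :=
      Real.rpow_le_rpow (by positivity) (by linarith) (by linarith)
    rw [Real.mul_rpow (by norm_num) hn0.le] at h7
    have h8 : (2 : ℝ) ^ (3 / 2 - 2 / p) ≤ 3 := by
      have h9 : (2 : ℝ) ^ (3 / 2 - 2 / p) ≤ 2 ^ (3 / 2 : ℝ) := by
        apply Real.rpow_le_rpow_of_exponent_le (by norm_num)
        have : 0 < 2 / p := by positivity
        linarith
      have h10 : (2 : ℝ) ^ (3 / 2 : ℝ) ≤ 3 := by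
        rw [show (3 / 2 : ℝ) = 1 + 1 / 2 by norm_num, Real.rpow_add (by norm_num), Real.rpow_one,
          ← Real.sqrt_eq_rpow]
        have : √2 ≤ 3 / 2 := by
          rw [Real.sqrt_le_left (by norm_num)]
          norm_num
        linarith
      linarith
    have h9 : 0 < (N : ℝ) ^ (3 / 2 - 2 / p) := Real.rpow_pos_of_pos hn0 _
    nlinarith
  have h7 : (1 + k / (N : ℝ)) ^ (2 / p) ≤ 1 + k / N := by
    have hp1 : 2 / p ≤ 1 := by
      rw [div_le_one (by linarith)]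
      exact hp.le
    calc (1 + k / (N : ℝ)) ^ (2 / p) ≤ (1 + k / (N : ℝ)) ^ (1 : ℝ) := by
          apply Real.rpow_le_rpow_of_exponent_le _ hp1
          have : 0 ≤ k / (N : ℝ) := by positivity
          linarith
      _ = _ := Real.rpow_one _
  have h8 : (1 + k / (N : ℝ)) ^ (2 / p) * ph p (N + k) ≤ (1 + k / N) * ph p (N + k) :=
    mul_le_mul_of_nonneg_right h7 (ph_nonneg hp _)
  have h9 : (k / (N : ℝ)) * ph p (N + k) ≤ 30 * k * (N : ℝ) ^ (1 / 2 - 2 / p) := by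
    have h10 : ph p (N + k) ≤ 30 * (N : ℝ) ^ (3 / 2 - 2 / p) := by linarith
    have h11 : (N : ℝ) ^ (3 / 2 - 2 / p) = N * (N : ℝ) ^ (1 / 2 - 2 / p) := by
      rw [show (3 / 2 - 2 / p : ℝ) = 1 + (1 / 2 - 2 / p) by ring, Real.rpow_add hn0,
        Real.rpow_one]
    calc (k / (N : ℝ)) * ph p (N + k) ≤ (k / (N : ℝ)) * (30 * (N : ℝ) ^ (3 / 2 - 2 / p)) :=
          mul_le_mul_of_nonneg_left h10 (by positivity)
      _ = 30 * k * (N : ℝ) ^ (1 / 2 - 2 / p) := by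
          rw [h11]
          field_simp
  linarith

end

end Pool.Agent.T6.H88.GP
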