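import Mathlib
import Pool.Agent.T6.H88.GP.Mean
import Pool.Agent.Helper7.OT.UV

set_option autoImplicit false

/-!
# The lower bound for the mean
-/

namespace Pool.Agent.T6.H88.GP

open MeasureTheory ProbabilityTheory
open Pool.Agent.H320R2.LD (gam nsq nrm Lip)

noncomputable section

variable {p : ℝ}

/-- the signed row sums -/
def SS {h k : ℕ} (A : (Fin h ⊕ Fin k) × (Fin h ⊕ Fin k) → ℝ) (b : Fin k) : ℝ :=
  ∑ a : Fin h, (A (Sum.inl a, Sum.inr b) + A (Sum.inr b, Sum.inl a))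

/-- the sign change on the second diagonal block -/
def sg (h k : ℕ) : (Fin h ⊕ Fin k) × (Fin h ⊕ Fin k) → ℝ
  | (.inr _, .inr _) => -1
  | _ => 1

/-- the first diagonal block -/
def cA (h k : ℕ) : (Fin h ⊕ Fin k) × (Fin h ⊕ Fin k) → ℝ
  | (.inl _, .inl _) => 1
  | _ => 0

theorem low_pt (hp : 2 < p) {h k : ℕ} (hh : 0 < h)
    (A : (Fin h ⊕ Fin k) × (Fin h ⊕ Fin k) → ℝ) :
    2 * ((h + k : ℝ) ^ (-(2 / p))) * ((∑ v, A v * cA h k v) + ∑ b, |SS A b|) ≤
      LL p A + LL p (fun q => sg h k q * A (id q)) := by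
  have hp0 : 0 < p := by linarith
  set n : ℝ := (h + k : ℝ) with hn
  have hnpos : 0 < n := by
    have : (0 : ℝ) < h := by exact_mod_cast hh
    positivity
  set τ := n ^ (-(1 / p)) with hτ
  have hτ0 : 0 < τ := Real.rpow_pos_of_pos hnpos _
  have hτp : τ ^ p = n⁻¹ := by
    rw [hτ, ← Real.rpow_mul hnpos.le, show -(1 / p) * p = -1 by field_simp, Real.rpow_neg_one]
  have hτ2 : n ^ (-(2 / p)) = τ * τ := by
    rw [hτ, ← Real.rpow_add hnpos]
    congr 1
    ring
  rw [hτ2]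
  set σ : Fin k → ℝ := fun b => if 0 ≤ SS A b then 1 else -1 with hσ
  have hσ1 : ∀ b, |σ b| = 1 := by
    intro b
    simp only [hσ]
    split_ifs <;> simp
  have hσS : ∀ b, σ b * SS A b = |SS A b| := by
    intro b
    simp only [hσ]
    split_ifs with h1
    · rw [one_mul, abs_of_nonneg h1]
    · push Not at h1
      rw [abs_of_neg h1]
      ring
  set x : Fin h ⊕ Fin k → ℝ := Sum.elim (fun _ => τ) (fun b => τ * σ b) with hx
  have hxB : x ∈ BB p (Fin h ⊕ Fin k) := by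
    show ps p x ≤ 1
    unfold ps
    rw [Fintype.sum_sum_type]
    simp only [hx, Sum.elim_inl, Sum.elim_inr, abs_mul, hσ1, mul_one, abs_of_pos hτ0, hτp]
    simp only [Finset.sum_const, Finset.card_univ, Fintype.card_fin, nsmul_eq_mul]
    rw [← add_mul, ← hn, mul_inv_cancel₀ hnpos.ne']
  have e1 := le_mx hp0 (Q_cont A) hxB
  have e2 := le_mx hp0 (Q_cont (fun q => sg h k q * A (id q))) hxB
  have key : Q A x + Q (fun q => sg h k q * A (id q)) x =
      2 * (τ * τ) * ((∑ v, A v * cA h k v) + ∑ b, |SS A b|) := by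
    unfold Q
    rw [← Finset.sum_add_distrib]
    simp only [Fintype.sum_prod_type, Fintype.sum_sum_type, hx, Sum.elim_inl, Sum.elim_inr, sg,
      cA, id, mul_zero, mul_one, one_mul, Finset.sum_const_zero, add_zero]
    have h1 : ∑ b, |SS A b| = ∑ b, σ b * SS A b := by
      apply Finset.sum_congr rfl
      intro b _
      exact (hσS b).symm
    rw [h1]
    have h2 : ∀ b b' : Fin k, A (Sum.inr b, Sum.inr b') * (τ * σ b * (τ * σ b')) +
        -1 * A (Sum.inr b, Sum.inr b') * (τ * σ b * (τ * σ b')) = 0 := by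
      intro b b'
      ring
    simp only [h2, Finset.sum_const_zero, add_zero]
    have h3 : ∑ b, σ b * SS A b = ∑ a, ∑ b, σ b * A (Sum.inl a, Sum.inr b) +
        ∑ b, ∑ a, σ b * A (Sum.inr b, Sum.inl a) := by
      rw [Finset.sum_comm, ← Finset.sum_add_distrib]
      apply Finset.sum_congr rfl
      intro b _
      unfold SS
      rw [Finset.mul_sum, ← Finset.sum_add_distrib]
      apply Finset.sum_congr rfl
      intro a _
      ring
    rw [h3, mul_add, mul_add]
    rw [Finset.sum_add_distrib]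
    simp only [Finset.mul_sum]
    rw [add_assoc]
    congr 1
    · apply Finset.sum_congr rfl
      intro a _
      apply Finset.sum_congr rfl
      intro b _
      ring
    · congr 1
      · apply Finset.sum_congr rfl
        intro a _
        apply Finset.sum_congr rfl
        intro b _
        ring
      · apply Finset.sum_congr rfl
        intro a _
        apply Finset.sum_congr rfl
        intro b _
        ring
  rw [← key]
  unfold LL
  linarith

/-- the unit vector giving the row sum -/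
def ub (h k : ℕ) (b : Fin k) : Unit → (Fin h ⊕ Fin k) × (Fin h ⊕ Fin k) → ℝ
  | _, (.inl _, .inr b') => if b' = b then (√(2 * h))⁻¹ else 0
  | _, (.inr b', .inl _) => if b' = b then (√(2 * h))⁻¹ else 0
  | _, _ => 0

theorem ub_orth (h k : ℕ) (hh : 0 < h) (b : Fin k) (α β : Unit) :
    ∑ q, ub h k b α q * ub h k b β q = if α = β then 1 else 0 := by
  have hk0 : (0 : ℝ) < h := by exact_mod_cast hh
  have hs : (√(2 * h : ℝ))⁻¹ * (√(2 * h : ℝ))⁻¹ = (2 * (h : ℝ))⁻¹ := by
    rw [← mul_inv, Real.mul_self_sqrt (by positivity)]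
  simp only [Fintype.sum_prod_type, Fintype.sum_sum_type, ub, mul_zero, Finset.sum_const_zero,
    zero_add, add_zero, if_true]
  have h1 : ∀ x : Fin k, ((if x = b then (√(2 * h : ℝ))⁻¹ else 0) *
      (if x = b then (√(2 * h : ℝ))⁻¹ else 0)) = if x = b then (2 * (h : ℝ))⁻¹ else 0 := by
    intro x
    by_cases hx : x = b
    · simp only [hx, if_true, hs]
    · simp [hx]
  simp only [h1, Finset.sum_const, Finset.card_univ, Fintype.card_fin, nsmul_eq_mul,
    Finset.sum_ite_eq', Finset.mem_univ, if_true]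
  rw [← Finset.mul_sum, Finset.sum_ite_eq']
  simp only [Finset.mem_univ, if_true]
  field_simp
  norm_num

theorem SS_eq (h k : ℕ) (hh : 0 < h) (b : Fin k)
    (A : (Fin h ⊕ Fin k) × (Fin h ⊕ Fin k) → ℝ) :
    SS A b = √(2 * h) * ∑ v, ub h k b () v * A v := by
  have hk0 : (0 : ℝ) < h := by exact_mod_cast hh
  have hs : 0 < √(2 * h : ℝ) := Real.sqrt_pos.mpr (by positivity)
  simp only [Fintype.sum_prod_type, Fintype.sum_sum_type, ub, zero_mul, Finset.sum_const_zero,
    zero_add, add_zero, ite_mul, Finset.sum_ite_eq', Finset.mem_univ, if_true]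
  have h1 : ∑ x : Fin k, ∑ x_1 : Fin h, (if x = b then (√(2 * h : ℝ))⁻¹ *
      A (Sum.inr x, Sum.inl x_1) else 0) = ∑ a : Fin h, (√(2 * h : ℝ))⁻¹ *
      A (Sum.inr b, Sum.inl a) := by
    rw [Finset.sum_eq_single b]
    · simp
    · intro x _ hx
      simp [hx]
    · simp
  rw [h1]
  unfold SS
  rw [← Finset.sum_add_distrib, Finset.mul_sum]
  apply Finset.sum_congr rfl
  intro a _
  field_simp

theorem abs_gauss : ∫ y, |y| ∂(gaussianReal 0 1) = 2 * (√(2 * Real.pi))⁻¹ :=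
  Pool.Agent.Helper7.Simplex.OT.J24723.kuv_abs

theorem SS_law (h k : ℕ) (hh : 0 < h) (b : Fin k) :
    Integrable (fun A : (Fin h ⊕ Fin k) × (Fin h ⊕ Fin k) → ℝ => |SS A b|)
      (gam ((Fin h ⊕ Fin k) × (Fin h ⊕ Fin k))) ∧
    ∫ A, |SS A b| ∂(gam ((Fin h ⊕ Fin k) × (Fin h ⊕ Fin k))) =
      √(2 * h) * (2 * (√(2 * Real.pi))⁻¹) := by
  have h1 := orth_map (ub h k b) (ub_orth h k hh b)
  have h2 := coord_law (V := Unit) ()
  have h3 := h2.comp h1
  have i0 : Integrable (fun y : ℝ => |y|) (gaussianReal 0 1) :=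
    (memLp_id_gaussianReal (μ := 0) (v := 1) 1).integrable (by norm_num) |>.abs
  have e0 : ∀ A : (Fin h ⊕ Fin k) × (Fin h ⊕ Fin k) → ℝ, |SS A b| =
      √(2 * h) * (fun y : ℝ => |y|) (((fun x : Unit → ℝ => x ()) ∘
        (fun (x : (Fin h ⊕ Fin k) × (Fin h ⊕ Fin k) → ℝ) (a : Unit) =>
          ∑ v, ub h k b a v * x v)) A) := by
    intro A
    rw [SS_eq h k hh b A, abs_mul, abs_of_nonneg (Real.sqrt_nonneg _)]
    rfl
  constructor
  · simp only [e0]
    apply Integrable.const_mul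
    rw [← h3.map_eq] at i0
    exact i0.comp_measurable h3.measurable
  · simp only [e0]
    rw [integral_const_mul]
    congr 1
    rw [← abs_gauss, ← h3.map_eq, integral_map h3.measurable.aemeasurable (by fun_prop)]

theorem ph_lower' (hp : 2 < p) {h k : ℕ} (hh : 0 < h) :
    ((h + k : ℝ) ^ (-(2 / p))) * (k * (√(2 * h) * (2 * (√(2 * Real.pi))⁻¹))) ≤ ph p (h + k) := by
  have hsg : MeasurePreserving (fun (A : (Fin h ⊕ Fin k) × (Fin h ⊕ Fin k) → ℝ)
      (q : (Fin h ⊕ Fin k) × (Fin h ⊕ Fin k)) => sg h k q * A (id q))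
      (gam ((Fin h ⊕ Fin k) × (Fin h ⊕ Fin k))) (gam ((Fin h ⊕ Fin k) × (Fin h ⊕ Fin k))) :=
    sgn_map id Function.injective_id (sg h k) (by
      rintro ⟨a | a, b | b⟩ <;> simp [sg])
  have i1 := LL_int (ι := Fin h ⊕ Fin k) hp
  have i2 := MP_int hsg i1
  have i3 := lin_int (cA h k)
  have i4 : Integrable (fun A : (Fin h ⊕ Fin k) × (Fin h ⊕ Fin k) → ℝ => ∑ b, |SS A b|)
      (gam ((Fin h ⊕ Fin k) × (Fin h ⊕ Fin k))) :=
    integrable_finsetSum _ fun b _ => (SS_law h k hh b).1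
  have h1 := integral_mono ((i3.add i4).const_mul (2 * ((h + k : ℝ) ^ (-(2 / p))))) (i1.add i2)
    (fun A => low_pt hp hh A)
  simp only [Pi.add_apply] at h1
  rw [integral_const_mul, integral_add i3 i4, lin_mean, integral_add i1 i2,
    MP_comp hsg (Lip.continuous (LL_lip hp)), integral_finsetSum _ fun b _ => (SS_law h k hh b).1]
    at h1
  have h2 : ∀ b, ∫ A, |SS A b| ∂(gam ((Fin h ⊕ Fin k) × (Fin h ⊕ Fin k))) =
      √(2 * h) * (2 * (√(2 * Real.pi))⁻¹) := fun b => (SS_law h k hh b).2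
  simp only [h2, Finset.sum_const, Finset.card_univ, Fintype.card_fin, nsmul_eq_mul] at h1
  have h3 : ∫ A, LL p A ∂(gam ((Fin h ⊕ Fin k) × (Fin h ⊕ Fin k))) = ph p (h + k) :=
    Phi_ph hp (by simp)
  rw [h3] at h1
  linarith

theorem ph_lower (hp : 2 < p) (n : ℕ) (hn : 2 ≤ n) :
    (n : ℝ) ^ (3 / 2 - 2 / p) / 4 ≤ ph p n := by
  obtain ⟨h, k, h1, h2, h3, h4⟩ : ∃ h k : ℕ, n = h + k ∧ 0 < h ∧ n ≤ 3 * h ∧ n ≤ 2 * k :=
    ⟨n / 2, n - n / 2, by omega, by omega, by omega, by omega⟩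
  have h5 := ph_lower' hp (k := k) h2
  rw [← h1] at h5
  refine le_trans ?_ h5
  have hn0 : (0 : ℝ) < n := by
    have : 0 < n := by omega
    exact_mod_cast this
  have e1 : (h : ℝ) + k = n := by exact_mod_cast h1.symm
  rw [e1]
  have e2 : (n : ℝ) ^ (3 / 2 - 2 / p) = (n : ℝ) ^ (-(2 / p)) * (n * √n) := by
    rw [Real.sqrt_eq_rpow, show (n : ℝ) * (n : ℝ) ^ (1 / 2 : ℝ) = (n : ℝ) ^ (1 + 1 / 2 : ℝ) by
      rw [Real.rpow_add hn0, Real.rpow_one], ← Real.rpow_add hn0]
    congr 1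
    ring
  rw [e2, mul_div_assoc]
  apply mul_le_mul_of_nonneg_left _ (Real.rpow_nonneg hn0.le _)
  have h3' : (n : ℝ) ≤ 3 * h := by exact_mod_cast h3
  have h4' : (n : ℝ) ≤ 2 * k := by exact_mod_cast h4
  have h0' : (0 : ℝ) < h := by exact_mod_cast h2
  have hpi : Real.pi ≤ 3.15 := Real.pi_lt_d2.le
  have e3 : √n / 2 ≤ √(2 * h) * (2 * (√(2 * Real.pi))⁻¹) := by
    have hpp : 0 < √(2 * Real.pi) := Real.sqrt_pos.mpr (by positivity)
    rw [← mul_assoc, ← div_eq_mul_inv, div_le_div_iff₀ (by norm_num) hpp]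
    have e4 : √(n : ℝ) * √(2 * Real.pi) = √(n * (2 * Real.pi)) := (Real.sqrt_mul hn0.le _).symm
    rw [e4]
    have e5 : √(2 * h : ℝ) * 2 * 2 = √(2 * h * 16) := by
      rw [Real.sqrt_mul (by positivity : (0 : ℝ) ≤ 2 * h), show (16 : ℝ) = 4 ^ 2 by norm_num,
        Real.sqrt_sq (by norm_num)]
      ring
    rw [e5]
    apply Real.sqrt_le_sqrt
    nlinarith [Real.pi_pos]
  have e4 : (n : ℝ) * √n / 4 = (n / 2) * (√n / 2) := by ring
  rw [e4]
  apply mul_le_mul _ e3 (by positivity) (by positivity)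
  linarith

end

end Pool.Agent.T6.H88.GP
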