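import Mathlib
import Pool.Agent.T6.H88.GP.Excess
import Pool.Agent.T6.H88.GP.Low

set_option autoImplicit false

/-!
# Concentration
-/

namespace Pool.Agent.T6.H88.GP

open MeasureTheory ProbabilityTheory
open Pool.Agent.H320R2.LD (gam nsq nrm Lip)

noncomputable section

variable {ι : Type} [Fintype ι] {p : ℝ}

theorem conc {V : Type} [Fintype V] {f : (V → ℝ) → ℝ} {L : ℝ} (hL : 0 < L) (hf : Lip L f)
    {u : ℝ} (hu : 0 ≤ u) :
    gam V {x | (∫ y, f y ∂(gam V)) + u ≤ f x} ≤ ENNReal.ofReal (Real.exp (-u ^ 2 / (4 * L ^ 2))) := by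
  have h := Pool.Agent.H320R2.LD.prove_CONC Pool.Agent.H320R2.LD.prove_MGF V f L hL hf u hu
  rw [measureReal_def] at h
  rwa [ENNReal.le_ofReal_iff_toReal_le (measure_ne_top _ _) (Real.exp_pos _).le]

section Minor

variable [DecidableEq ι]

/-- the family giving the minor and the row -/
def ww (i : ι) : ({j // j ≠ i} × {j // j ≠ i}) ⊕ {j // j ≠ i} → ι × ι → ℝ
  | .inl (a, b), q => if q = (a.1, b.1) then 1 else 0
  | .inr j, q => (if q = (i, j.1) then (√2)⁻¹ else 0) + (if q = (j.1, i) then (√2)⁻¹ else 0)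

theorem ww_orth (i : ι) (α β : ({j // j ≠ i} × {j // j ≠ i}) ⊕ {j // j ≠ i}) :
    ∑ q, ww i α q * ww i β q = if α = β then 1 else 0 := by
  have hs : (√2 : ℝ)⁻¹ * (√2 : ℝ)⁻¹ = 2⁻¹ := by
    rw [← mul_inv, Real.mul_self_sqrt (by positivity)]
  rcases α with ⟨a, b⟩ | a <;> rcases β with ⟨c, d⟩ | c
  · simp only [ww, ite_mul, one_mul, zero_mul, Finset.sum_ite_eq', Finset.mem_univ, if_true,
      Prod.mk.injEq, Sum.inl.injEq]
    by_cases h : a = c ∧ b = d
    · obtain ⟨rfl, rfl⟩ := h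
      simp
    · rw [if_neg h, if_neg]
      rintro ⟨h1, h2⟩
      exact h ⟨Subtype.ext h1, Subtype.ext h2⟩
  · simp only [ww, ite_mul, one_mul, zero_mul, Finset.sum_ite_eq', Finset.mem_univ, if_true,
      Prod.mk.injEq]
    rw [if_neg (fun h => a.2 h.1), if_neg (fun h => b.2 h.2)]
    simp
  · simp only [ww, mul_ite, mul_one, mul_zero, Finset.sum_ite_eq', Finset.mem_univ, if_true,
      Prod.mk.injEq]
    rw [if_neg (fun h => c.2 h.1), if_neg (fun h => d.2 h.2)]
    simp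
  · simp only [ww, add_mul, ite_mul, zero_mul, Finset.sum_add_distrib, Finset.sum_ite_eq',
      Finset.mem_univ, if_true, Prod.mk.injEq, Sum.inr.injEq, true_and, and_true]
    rw [if_neg (fun h : i = c.1 ∧ a.1 = i => a.2 h.2), if_neg (fun h : a.1 = i ∧ i = c.1 => a.2 h.1)]
    by_cases h : a = c
    · subst h
      simp only [if_true, add_zero, zero_add, hs]
      norm_num
    · have : a.1 ≠ c.1 := fun h' => h (Subtype.ext h')
      simp [h, this]

theorem ww_inl (i : ι) (A : ι × ι → ℝ) (q : {j // j ≠ i} × {j // j ≠ i}) :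
    ∑ v, ww i (Sum.inl q) v * A v = Ak A i q := by
  simp [ww, Ak]

theorem ww_inr (i : ι) (A : ι × ι → ℝ) (j : {j // j ≠ i}) :
    ∑ v, ww i (Sum.inr j) v * A v = gk A i j := by
  simp only [ww, gk, add_mul, ite_mul, zero_mul, Finset.sum_add_distrib, Finset.sum_ite_eq',
      Finset.mem_univ, if_true]
  field_simp

theorem row_map (i : ι) :
    MeasurePreserving (fun A : ι × ι → ℝ => (Ak A i, gk A i)) (gam (ι × ι))
      ((gam ({j // j ≠ i} × {j // j ≠ i})).prod (gam {j // j ≠ i})) := by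
  have h1 := orth_map (ww i) (ww_orth i)
  have h2 := sum_map (α := {j // j ≠ i} × {j // j ≠ i}) (β := {j // j ≠ i})
  have h3 := h2.comp h1
  have h4 : (fun A : ι × ι → ℝ => (Ak A i, gk A i)) =
      (fun (x : ({j // j ≠ i} × {j // j ≠ i}) ⊕ {j // j ≠ i} → ℝ) =>
        ((fun a => x (Sum.inl a)), (fun b => x (Sum.inr b)))) ∘
      (fun (x : ι × ι → ℝ) a => ∑ v, ww i a v * x v) := by
    funext A
    simp only [Function.comp]
    refine Prod.ext ?_ ?_
    · funext q
      exact (ww_inl i A q).symm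
    · funext j
      exact (ww_inr i A j).symm
  rw [h4]
  exact h3

theorem bad1 [Nonempty ι] (hp : 2 < p) (i : ι) {t u : ℝ} (ht : 0 < t) (hu : 0 ≤ u) :
    gam (ι × ι) {A | EV p t (Ak A i) + u ≤ VV p t (Ak A i) (gk A i)} ≤
      ENNReal.ofReal (Real.exp (-u ^ 2 /
        (4 * (t * (Fintype.card ι : ℝ) ^ (1 / 2 - 1 / p)) ^ 2))) := by
  have hn : (0 : ℝ) < Fintype.card ι := by exact_mod_cast Fintype.card_pos
  have hL : 0 < t * (Fintype.card ι : ℝ) ^ (1 / 2 - 1 / p) := by positivity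
  have hc1 := Lip.continuous (EV_lip (ι := {j // j ≠ i}) hp t)
  have hc2 := VV_cont (ι := {j // j ≠ i}) hp t
  have hms : MeasurableSet {r : ({j // j ≠ i} × {j // j ≠ i} → ℝ) × ({j // j ≠ i} → ℝ) |
      EV p t r.1 + u ≤ VV p t r.1 r.2} :=
    (isClosed_le ((hc1.comp continuous_fst).add continuous_const) hc2).measurableSet
  have h1 := (row_map i).measure_preimage hms.nullMeasurableSet
  have h2 : (fun A : ι × ι → ℝ => (Ak A i, gk A i)) ⁻¹'
      {r : ({j // j ≠ i} × {j // j ≠ i} → ℝ) × ({j // j ≠ i} → ℝ) |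
      EV p t r.1 + u ≤ VV p t r.1 r.2} =
      {A | EV p t (Ak A i) + u ≤ VV p t (Ak A i) (gk A i)} := rfl
  rw [h2] at h1
  rw [h1, Measure.prod_apply hms]
  calc ∫⁻ x, gam {j // j ≠ i} (Prod.mk x ⁻¹'
        {r : ({j // j ≠ i} × {j // j ≠ i} → ℝ) × ({j // j ≠ i} → ℝ) |
        EV p t r.1 + u ≤ VV p t r.1 r.2}) ∂(gam ({j // j ≠ i} × {j // j ≠ i}))
      ≤ ∫⁻ x, ENNReal.ofReal (Real.exp (-u ^ 2 /
        (4 * (t * (Fintype.card ι : ℝ) ^ (1 / 2 - 1 / p)) ^ 2)))
          ∂(gam ({j // j ≠ i} × {j // j ≠ i})) := by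
        apply lintegral_mono
        intro x
        have hlip : Lip (t * (Fintype.card ι : ℝ) ^ (1 / 2 - 1 / p)) (VV p t x) := by
          apply Lip.mono (VV_lip hp t x)
          rw [abs_of_pos ht]
          apply mul_le_mul_of_nonneg_left _ ht.le
          apply Real.rpow_le_rpow (by positivity)
          · have : Fintype.card {j // j ≠ i} ≤ Fintype.card ι := Fintype.card_subtype_le _
            exact_mod_cast this
          · have : 1 / p < 1 / 2 := one_div_lt_one_div_of_lt (by norm_num) hp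
            linarith
        exact conc hL hlip hu
    _ = _ := by simp

end Minor

theorem bad3 (v : ι) {s : ℝ} (hs : 0 ≤ s) :
    gam ι {x | s ≤ |x v|} ≤ 2 * ENNReal.ofReal (Real.exp (-s ^ 2 / 4)) := by
  have h1 := conc one_pos (coord_lip v) hs
  have h2' : Lip 1 (fun x : ι → ℝ => -x v) := by
    intro x y
    have := coord_lip v x y
    rw [show -x v - -y v = -(x v - y v) by ring, abs_neg]
    exact this
  have h2 := conc one_pos h2' hs
  rw [coord_mean] at h1
  rw [integral_neg, coord_mean] at h2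
  simp only [neg_zero, zero_add, one_pow, mul_one] at h1 h2
  have h3 : {x : ι → ℝ | s ≤ |x v|} ⊆ {x | s ≤ x v} ∪ {x | s ≤ -x v} := by
    intro x hx
    simp only [Set.mem_ofPred_eq, Set.mem_union] at hx ⊢
    exact le_abs.mp hx
  refine (measure_mono h3).trans ((measure_union_le _ _).trans ?_)
  rw [two_mul]
  exact add_le_add h1 h2

theorem bad4 (hp : 2 < p) (hn : 2 ≤ Fintype.card ι) :
    gam (ι × ι) {A | LL p A ≤ (Fintype.card ι : ℝ) ^ (3 / 2 - 2 / p) / 8} ≤
      ENNReal.ofReal (Real.exp (-(Fintype.card ι : ℝ) / 256)) := by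
  have hn0 : (0 : ℝ) < Fintype.card ι := by
    have : 0 < Fintype.card ι := by omega
    exact_mod_cast this
  have h1 := ph_lower hp (Fintype.card ι) hn
  have h2 : ∫ A, LL p A ∂(gam (ι × ι)) = ph p (Fintype.card ι) := Phi_ph hp rfl
  have h3' : Lip ((Fintype.card ι : ℝ) ^ (1 - 2 / p)) (fun A : ι × ι → ℝ => -LL p A) := by
    intro x y
    have := LL_lip hp x y
    rw [show -LL p x - -LL p y = -(LL p x - LL p y) by ring, abs_neg]
    exact this
  have h3 := conc (by positivity) h3'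
    (show 0 ≤ (Fintype.card ι : ℝ) ^ (3 / 2 - 2 / p) / 8 by positivity)
  rw [integral_neg, h2] at h3
  refine le_trans (measure_mono ?_) (h3.trans ?_)
  · intro A hA
    simp only [Set.mem_ofPred_eq] at hA ⊢
    linarith
  · apply ENNReal.ofReal_le_ofReal
    apply Real.exp_le_exp.mpr
    have h4 : ((Fintype.card ι : ℝ) ^ (3 / 2 - 2 / p)) ^ 2 =
        (Fintype.card ι : ℝ) * ((Fintype.card ι : ℝ) ^ (1 - 2 / p)) ^ 2 := by
      rw [← Real.rpow_natCast, ← Real.rpow_natCast, ← Real.rpow_mul hn0.le,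
        ← Real.rpow_mul hn0.le]
      nth_rewrite 2 [← Real.rpow_one (Fintype.card ι : ℝ)]
      rw [← Real.rpow_add hn0]
      congr 1
      push_cast
      ring
    apply le_of_eq
    rw [div_pow, h4]
    have h5 : ((Fintype.card ι : ℝ) ^ (1 - 2 / p)) ≠ 0 := by positivity
    field_simp
    norm_num

theorem bad2 [Nonempty ι] (hp : 2 < p) (k : ℕ) (hk : 0 < k) (hkn : k ≤ Fintype.card ι) {c : ℝ}
    (hc : 0 < c) :
    gam (ι × ι) {A | c * (60 * k * (Fintype.card ι : ℝ) ^ (1 / 2 - 2 / p)) ≤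
      EV p ((Fintype.card ι : ℝ) ^ (-(1 / p)) * √(2 * k : ℝ)) A - LL p A} ≤
      ENNReal.ofReal (1 / c) := by
  have hn0 : (0 : ℝ) < Fintype.card ι := by
    exact_mod_cast Fintype.card_pos
  have hk0 : (0 : ℝ) < k := by exact_mod_cast hk
  have h1 := excess_mean (ι := ι) hp k hk hkn
  have h2 := mul_meas_ge_le_integral_of_nonneg (μ := gam (ι × ι))
    (f := fun A => EV p ((Fintype.card ι : ℝ) ^ (-(1 / p)) * √(2 * k : ℝ)) A - LL p A)
    (Filter.Eventually.of_forall fun A => sub_nonneg.mpr (LL_le_EV hp _ A))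
    ((EV_int hp _).sub (LL_int hp)) (c * (60 * k * (Fintype.card ι : ℝ) ^ (1 / 2 - 2 / p)))
  rw [ENNReal.le_ofReal_iff_toReal_le (measure_ne_top _ _) (by positivity), ← measureReal_def]
  have h3 : 0 < 60 * k * (Fintype.card ι : ℝ) ^ (1 / 2 - 2 / p) := by positivity
  rw [le_div_iff₀ hc]
  have h4 := h2.trans h1
  set m := (gam (ι × ι)).real {A | c * (60 * k * (Fintype.card ι : ℝ) ^ (1 / 2 - 2 / p)) ≤
      EV p ((Fintype.card ι : ℝ) ^ (-(1 / p)) * √(2 * k : ℝ)) A - LL p A} with hm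
  have h5 : (60 * k * (Fintype.card ι : ℝ) ^ (1 / 2 - 2 / p)) * (m * c) ≤
      (60 * k * (Fintype.card ι : ℝ) ^ (1 / 2 - 2 / p)) * 1 := by linarith
  exact le_of_mul_le_mul_left h5 h3

end

end Pool.Agent.T6.H88.GP
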