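import Mathlib
import Pool.Agent.T6.H88.GP.Conc

set_option autoImplicit false

/-!
# The good event
-/

namespace Pool.Agent.T6.H88.GP

open MeasureTheory ProbabilityTheory
open Pool.Agent.H320R2.LD (gam nsq nrm Lip)

noncomputable section

variable {ι : Type} [Fintype ι] {p : ℝ}

/-- the dyadic scales -/
def tj (p : ℝ) (n : ℕ) (j : ℕ) : ℝ := (n : ℝ) ^ (-(1 / p)) * √(2 * (2 ^ j : ℕ) : ℝ)

/-- the good event -/
structure Good (p : ℝ) (s ℓ : ℝ) {ι : Type} [Fintype ι] [DecidableEq ι] (A : ι × ι → ℝ) : Prop where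
  g1 : ∀ i : ι, ∀ j : ℕ, 2 ^ j ≤ Fintype.card ι →
    VV p (tj p (Fintype.card ι) j) (Ak A i) (gk A i) <
      EV p (tj p (Fintype.card ι) j) (Ak A i) +
        s * (tj p (Fintype.card ι) j * (Fintype.card ι : ℝ) ^ (1 / 2 - 1 / p))
  g2 : ∀ j : ℕ, 2 ^ j ≤ Fintype.card ι →
    EV p (tj p (Fintype.card ι) j) A - LL p A <
      ℓ ^ 2 * (60 * (2 ^ j : ℕ) * (Fintype.card ι : ℝ) ^ (1 / 2 - 2 / p))
  g3 : ∀ i : ι, |A (i, i)| < s
  g4 : (Fintype.card ι : ℝ) ^ (3 / 2 - 2 / p) / 8 < LL p A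

theorem good_det [DecidableEq ι] (hp : 2 < p) {s ℓ : ℝ} {A : ι × ι → ℝ} (hG : Good p s ℓ A)
    (hℓ : 1 ≤ ℓ) (hs : s ≤ 5 * ℓ) (hn1 : 1 ≤ Fintype.card ι)
    (hn : 8 * (Fintype.card ι : ℝ) ^ (2 / p) ≤ Fintype.card ι)
    (x : ι → ℝ) (hx : x ∈ BB p ι) (hopt : ∀ y ∈ BB p ι, Q A y ≤ Q A x) (i : ι) :
    |x i| ≤ (2060 * ℓ ^ 2) ^ (1 / (p - 2)) * (Fintype.card ι : ℝ) ^ (-(1 / p)) := by
  have hp0 : 0 < p := by linarith
  have hp2 : 0 < p - 2 := by linarith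
  set n : ℝ := (Fintype.card ι : ℝ) with hnn
  have hn1' : (1 : ℝ) ≤ n := by
    rw [hnn]
    exact_mod_cast hn1
  have hn0 : (0 : ℝ) < n := by linarith
  set M := |x i| with hM
  have hM0 : 0 ≤ M := abs_nonneg _
  have hs0 : 0 ≤ s := (abs_nonneg _).trans (hG.g3 i).le
  have hℓ2 : 1 ≤ ℓ ^ 2 := one_le_pow₀ hℓ
  have hτ0 : 0 < n ^ (-(1 / p)) := Real.rpow_pos_of_pos hn0 _
  by_cases hMs : M ≤ n ^ (-(1 / p))
  · have h1 : (1 : ℝ) ≤ (2060 * ℓ ^ 2) ^ (1 / (p - 2)) :=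
      Real.one_le_rpow (by linarith) (by positivity)
    nlinarith
  push Not at hMs
  have hMpos : 0 < M := lt_trans hτ0 hMs
  -- the normalised size
  set r := M * n ^ (1 / p) with hr
  have hnn1 : n ^ (-(1 / p)) * n ^ (1 / p) = 1 := by
    rw [← Real.rpow_add hn0]
    simp
  have hr1 : 1 < r := by
    have : n ^ (-(1 / p)) * n ^ (1 / p) < M * n ^ (1 / p) :=
      mul_lt_mul_of_pos_right hMs (Real.rpow_pos_of_pos hn0 _)
    rwa [hnn1] at this
  have hM1 : M ≤ 1 := abs_le_one hp0 hx i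
  have hr2 : r ^ 2 ≤ n ^ (2 / p) := by
    have h1 : r ≤ n ^ (1 / p) := by
      rw [hr]
      exact mul_le_of_le_one_left (Real.rpow_nonneg hn0.le _) hM1
    have h2 : n ^ (2 / p) = (n ^ (1 / p)) ^ 2 := by
      rw [← Real.rpow_natCast, ← Real.rpow_mul hn0.le]
      congr 1
      push_cast
      ring
    rw [h2]
    exact pow_le_pow_left₀ (by linarith) h1 2
  have hrM : r ^ 2 * n ^ (-(2 / p)) = M ^ 2 := by
    have h2 : n ^ (-(2 / p)) = (n ^ (-(1 / p))) ^ 2 := by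
      rw [← Real.rpow_natCast, ← Real.rpow_mul hn0.le]
      congr 1
      push_cast
      ring
    rw [h2, ← mul_pow, hr]
    congr 1
    rw [mul_assoc, mul_comm (n ^ (1 / p)), hnn1, mul_one]
  have hr21 : 1 < r ^ 2 := one_lt_pow₀ hr1 (by norm_num)
  obtain ⟨j0, hj1, hj2⟩ := exists_nat_pow_near (x := 4 * r ^ 2) (y := (2 : ℝ)) (by linarith)
    (by norm_num)
  set j := j0 + 1 with hj
  have hj3 : (2 : ℝ) ^ j ≤ 8 * r ^ 2 := by
    rw [hj, pow_succ]
    linarith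
  have hjn : 2 ^ j ≤ Fintype.card ι := by
    have h1 : (2 : ℝ) ^ j ≤ n := by linarith
    rw [hnn] at h1
    exact_mod_cast h1
  -- the scale
  have ht2 : tj p (Fintype.card ι) j ^ 2 = n ^ (-(2 / p)) * (2 * 2 ^ j) := by
    unfold tj
    rw [mul_pow, Real.sq_sqrt (by positivity), ← hnn]
    push_cast
    congr 1
    rw [← Real.rpow_natCast, ← Real.rpow_mul hn0.le]
    congr 1
    push_cast
    ring
  have ht0 : 0 ≤ tj p (Fintype.card ι) j := by
    unfold tj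
    positivity
  set t := tj p (Fintype.card ι) j with ht
  have hτ2 : 0 < n ^ (-(2 / p)) := Real.rpow_pos_of_pos hn0 _
  have ht3 : 8 * M ^ 2 ≤ t ^ 2 := by
    rw [ht2, ← hrM]
    calc 8 * (r ^ 2 * n ^ (-(2 / p))) = n ^ (-(2 / p)) * (2 * (4 * r ^ 2)) := by ring
      _ ≤ _ := mul_le_mul_of_nonneg_left (by linarith) hτ2.le
  have ht4 : t ^ 2 ≤ (4 * M) ^ 2 := by
    rw [ht2, mul_pow, ← hrM]
    calc n ^ (-(2 / p)) * (2 * 2 ^ j) ≤ n ^ (-(2 / p)) * (2 * (8 * r ^ 2)) :=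
          mul_le_mul_of_nonneg_left (by linarith) hτ2.le
      _ = _ := by ring
  have ht5 : 2 * √2 * M ≤ t := by
    apply abs_le_of_sq_le_sq' _ ht0 |>.2
    rw [mul_pow, mul_pow, Real.sq_sqrt (by norm_num)]
    linarith
  have ht6 : t ≤ 4 * M := abs_le_of_sq_le_sq' ht4 (by linarith) |>.2
  -- the main inequality
  have hLL : LL p A = Q A x := by
    apply le_antisymm
    · exact mx_le hp0 hopt
    · exact le_mx hp0 (Q_cont A) hx
  have hpos : 0 < Q A x := by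
    rw [← hLL]
    have := hG.g4
    have h2 : 0 ≤ n ^ (3 / 2 - 2 / p) / 8 := by positivity
    linarith
  have hxi : x i ≠ 0 := by
    intro h
    rw [hM, h, abs_zero] at hMpos
    exact lt_irrefl _ hMpos
  have e1 := det_main hp A x hx hopt hpos i hxi t ht5
  have e2 := hG.g1 i j hjn
  have e3 := EV_mono hp t A i
  have e4 := hG.g2 j hjn
  have e5 := (hG.g3 i).le
  have e6 := hG.g4
  rw [hLL] at e4 e6
  rw [← ht, ← hnn] at e2 e4
  rw [← hM] at e1
  have hsq : x i ^ 2 = M ^ 2 := (sq_abs (x i)).symm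
  rw [hsq] at e1
  have e7 : 3 * |A (i, i)| * M ^ 2 ≤ 3 * s * M ^ 2 :=
    mul_le_mul_of_nonneg_right (by linarith) (sq_nonneg _)
  have hsn : 1 ≤ √n := Real.one_le_sqrt.mpr hn1'
  have e8 : 3 * s * M ^ 2 ≤ 3 * s * M ^ 2 * √n :=
    le_mul_of_one_le_right (by positivity) hsn
  have hhalf : n ^ (1 / 2 - 1 / p) = √n * n ^ (-(1 / p)) := by
    rw [Real.sqrt_eq_rpow, ← Real.rpow_add hn0]
    congr 1
  have hhalf2 : n ^ (1 / 2 - 2 / p) = √n * n ^ (-(2 / p)) := by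
    rw [Real.sqrt_eq_rpow, ← Real.rpow_add hn0]
    congr 1
  have e9 : s * (t * n ^ (1 / 2 - 1 / p)) ≤ 4 * s * M ^ 2 * √n := by
    rw [hhalf]
    have h1 : t * (√n * n ^ (-(1 / p))) ≤ (4 * M) * (√n * M) := by
      apply mul_le_mul ht6 _ (by positivity) (by positivity)
      exact mul_le_mul_of_nonneg_left hMs.le (by positivity)
    calc s * (t * (√n * n ^ (-(1 / p)))) ≤ s * ((4 * M) * (√n * M)) :=
          mul_le_mul_of_nonneg_left h1 hs0
      _ = 4 * s * M ^ 2 * √n := by ring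
  have e10 : ℓ ^ 2 * (60 * (2 ^ j : ℕ) * n ^ (1 / 2 - 2 / p)) ≤ 480 * ℓ ^ 2 * M ^ 2 * √n := by
    rw [hhalf2]
    push_cast
    have h1 : (2 : ℝ) ^ j * n ^ (-(2 / p)) ≤ 8 * M ^ 2 := by
      rw [← hrM, ← mul_assoc]
      exact mul_le_mul_of_nonneg_right hj3 hτ2.le
    calc ℓ ^ 2 * (60 * 2 ^ j * (√n * n ^ (-(2 / p))))
        = ℓ ^ 2 * 60 * √n * (2 ^ j * n ^ (-(2 / p))) := by ring
      _ ≤ ℓ ^ 2 * 60 * √n * (8 * M ^ 2) := mul_le_mul_of_nonneg_left h1 (by positivity)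
      _ = 480 * ℓ ^ 2 * M ^ 2 * √n := by ring
  have hℓℓ : ℓ ≤ ℓ ^ 2 := by
    rw [sq]
    exact le_mul_of_one_le_left (by linarith) hℓ
  have e11 : 7 * s * M ^ 2 * √n ≤ 35 * ℓ ^ 2 * M ^ 2 * √n := by
    have h1 : 7 * s ≤ 35 * ℓ ^ 2 := by linarith
    exact mul_le_mul_of_nonneg_right (mul_le_mul_of_nonneg_right h1 (sq_nonneg _))
      (Real.sqrt_nonneg _)
  have e12 : 2 * Q A x * M ^ p ≤ 515 * ℓ ^ 2 * M ^ 2 * √n := by linarith
  have hMp : 0 < M ^ p := Real.rpow_pos_of_pos hMpos _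
  have e13 : 2 * (n ^ (3 / 2 - 2 / p) / 8) * M ^ p ≤ 515 * ℓ ^ 2 * M ^ 2 * √n := by
    refine le_trans ?_ e12
    apply mul_le_mul_of_nonneg_right _ hMp.le
    linarith
  have hn32 : n ^ (3 / 2 - 2 / p) = √n * n ^ (1 - 2 / p) := by
    rw [Real.sqrt_eq_rpow, ← Real.rpow_add hn0]
    congr 1
    ring
  have hMp2 : M ^ p = M ^ 2 * M ^ (p - 2) := by
    rw [← Real.rpow_natCast M 2, ← Real.rpow_add hMpos]
    congr 1
    push_cast
    ring
  rw [hn32, hMp2] at e13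
  have hsn0 : 0 < √n := by linarith
  have e14 : M ^ (p - 2) * n ^ (1 - 2 / p) ≤ 2060 * ℓ ^ 2 := by
    have h1 : (M ^ 2 * √n) * (M ^ (p - 2) * n ^ (1 - 2 / p)) ≤ (M ^ 2 * √n) * (2060 * ℓ ^ 2) := by
      linarith
    exact le_of_mul_le_mul_left h1 (by positivity)
  have e15 : M ^ (p - 2) * n ^ (1 - 2 / p) = r ^ (p - 2) := by
    rw [hr, Real.mul_rpow hM0 (by positivity), ← Real.rpow_mul hn0.le]
    congr 2
    field_simp
  rw [e15] at e14
  have hr0 : 0 ≤ r := by linarith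
  have e16 : r ≤ (2060 * ℓ ^ 2) ^ (1 / (p - 2)) := by
    have h1 := Real.rpow_le_rpow (Real.rpow_nonneg hr0 _) e14
      (show 0 ≤ 1 / (p - 2) by positivity)
    rwa [← Real.rpow_mul hr0, mul_one_div_cancel hp2.ne', Real.rpow_one] at h1
  have e17 : M = r * n ^ (-(1 / p)) := by
    rw [hr, mul_assoc, mul_comm (n ^ (1 / p)), hnn1, mul_one]
  rw [e17]
  exact mul_le_mul_of_nonneg_right e16 hτ0.le

/-- the probability that the good event fails -/
theorem good_prob [DecidableEq ι] [Nonempty ι] (hp : 2 < p) {s ℓ : ℝ} (hs : 0 ≤ s) (hℓ : 0 < ℓ)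
    (hn2 : 2 ≤ Fintype.card ι) :
    gam (ι × ι) {A | ¬ Good p s ℓ A} ≤
      ENNReal.ofReal ((Fintype.card ι : ℝ) * (Nat.log 2 (Fintype.card ι) + 1 : ℕ) *
          Real.exp (-s ^ 2 / 4) +
        (Nat.log 2 (Fintype.card ι) + 1 : ℕ) * (1 / ℓ ^ 2) +
        (Fintype.card ι : ℝ) * (2 * Real.exp (-s ^ 2 / 4)) +
        Real.exp (-(Fintype.card ι : ℝ) / 256)) := by
  have hn0 : (0 : ℝ) < Fintype.card ι := by
    exact_mod_cast Fintype.card_pos
  set J := Nat.log 2 (Fintype.card ι) + 1 with hJ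
  have hjJ : ∀ j, 2 ^ j ≤ Fintype.card ι ↔ j < J := by
    intro j
    rw [hJ, Nat.lt_succ_iff, Nat.le_log_iff_pow_le (by norm_num) (by omega)]
  set B1 : ι → ℕ → Set (ι × ι → ℝ) := fun i j =>
    {A | EV p (tj p (Fintype.card ι) j) (Ak A i) +
        s * (tj p (Fintype.card ι) j * (Fintype.card ι : ℝ) ^ (1 / 2 - 1 / p)) ≤
      VV p (tj p (Fintype.card ι) j) (Ak A i) (gk A i)} with hB1
  set B2 : ℕ → Set (ι × ι → ℝ) := fun j =>
    {A | ℓ ^ 2 * (60 * (2 ^ j : ℕ) * (Fintype.card ι : ℝ) ^ (1 / 2 - 2 / p)) ≤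
      EV p (tj p (Fintype.card ι) j) A - LL p A} with hB2
  set B3 : ι → Set (ι × ι → ℝ) := fun i => {A | s ≤ |A (i, i)|} with hB3
  set B4 : Set (ι × ι → ℝ) := {A | LL p A ≤ (Fintype.card ι : ℝ) ^ (3 / 2 - 2 / p) / 8} with hB4
  have hsub : {A : ι × ι → ℝ | ¬ Good p s ℓ A} ⊆
      (((⋃ i, ⋃ j ∈ Finset.range J, B1 i j) ∪ (⋃ j ∈ Finset.range J, B2 j)) ∪ (⋃ i, B3 i)) ∪ B4 := by
    intro A hA
    by_contra hcon
    apply hA
    simp only [Set.mem_union, Set.mem_iUnion, Finset.mem_range, not_or, not_exists] at hcon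
    obtain ⟨⟨⟨c1, c2⟩, c3⟩, c4⟩ := hcon
    refine ⟨fun i j hj => ?_, fun j hj => ?_, fun i => ?_, ?_⟩
    · exact not_le.mp (c1 i j ((hjJ j).mp hj))
    · exact not_le.mp (c2 j ((hjJ j).mp hj))
    · exact not_le.mp (c3 i)
    · exact not_le.mp c4
  have b1 : ∀ i, ∀ j ∈ Finset.range J, gam (ι × ι) (B1 i j) ≤
      ENNReal.ofReal (Real.exp (-s ^ 2 / 4)) := by
    intro i j hj
    have ht : 0 < tj p (Fintype.card ι) j := by
      unfold tj
      positivity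
    have h1 := bad1 hp i (t := tj p (Fintype.card ι) j)
      (u := s * (tj p (Fintype.card ι) j * (Fintype.card ι : ℝ) ^ (1 / 2 - 1 / p))) ht
      (by positivity)
    refine h1.trans (le_of_eq ?_)
    congr 2
    have h2 : 0 < tj p (Fintype.card ι) j * (Fintype.card ι : ℝ) ^ (1 / 2 - 1 / p) := by
      positivity
    rw [mul_pow]
    field_simp
  have b2 : ∀ j ∈ Finset.range J, gam (ι × ι) (B2 j) ≤ ENNReal.ofReal (1 / ℓ ^ 2) := by
    intro j hj
    have h1 : 2 ^ j ≤ Fintype.card ι := (hjJ j).mpr (Finset.mem_range.mp hj)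
    exact bad2 hp (2 ^ j) (by positivity) h1 (by positivity)
  have b3 : ∀ i, gam (ι × ι) (B3 i) ≤ ENNReal.ofReal (2 * Real.exp (-s ^ 2 / 4)) := by
    intro i
    refine (bad3 (i, i) hs).trans (le_of_eq ?_)
    rw [ENNReal.ofReal_mul (by norm_num)]
    simp
  have b4 := bad4 (ι := ι) hp hn2
  refine (measure_mono hsub).trans ?_
  have u1 : gam (ι × ι) (⋃ i, ⋃ j ∈ Finset.range J, B1 i j) ≤
      ENNReal.ofReal ((Fintype.card ι : ℝ) * (J : ℕ) * Real.exp (-s ^ 2 / 4)) := by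
    calc gam (ι × ι) (⋃ i, ⋃ j ∈ Finset.range J, B1 i j)
        ≤ ∑ i, gam (ι × ι) (⋃ j ∈ Finset.range J, B1 i j) := measure_iUnion_fintype_le _ _
      _ ≤ ∑ i : ι, ∑ j ∈ Finset.range J, gam (ι × ι) (B1 i j) :=
          Finset.sum_le_sum fun i _ => measure_biUnion_finset_le _ _
      _ ≤ ∑ i : ι, ∑ j ∈ Finset.range J, ENNReal.ofReal (Real.exp (-s ^ 2 / 4)) :=
          Finset.sum_le_sum fun i _ => Finset.sum_le_sum fun j hj => b1 i j hj
      _ = _ := by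
          rw [Finset.sum_const, Finset.sum_const, Finset.card_univ, Finset.card_range,
            nsmul_eq_mul, nsmul_eq_mul, ENNReal.ofReal_mul (by positivity),
            ENNReal.ofReal_mul (by positivity), ENNReal.ofReal_natCast, ENNReal.ofReal_natCast,
            mul_assoc]
  have u2 : gam (ι × ι) (⋃ j ∈ Finset.range J, B2 j) ≤
      ENNReal.ofReal ((J : ℕ) * (1 / ℓ ^ 2)) := by
    calc gam (ι × ι) (⋃ j ∈ Finset.range J, B2 j)
        ≤ ∑ j ∈ Finset.range J, gam (ι × ι) (B2 j) := measure_biUnion_finset_le _ _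
      _ ≤ ∑ j ∈ Finset.range J, ENNReal.ofReal (1 / ℓ ^ 2) :=
          Finset.sum_le_sum fun j hj => b2 j hj
      _ = _ := by
          rw [Finset.sum_const, Finset.card_range, nsmul_eq_mul,
            ENNReal.ofReal_mul (by positivity), ENNReal.ofReal_natCast]
  have u3 : gam (ι × ι) (⋃ i, B3 i) ≤
      ENNReal.ofReal ((Fintype.card ι : ℝ) * (2 * Real.exp (-s ^ 2 / 4))) := by
    calc gam (ι × ι) (⋃ i, B3 i)
        ≤ ∑ i, gam (ι × ι) (B3 i) := measure_iUnion_fintype_le _ _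
      _ ≤ ∑ i : ι, ENNReal.ofReal (2 * Real.exp (-s ^ 2 / 4)) :=
          Finset.sum_le_sum fun i _ => b3 i
      _ = _ := by
          rw [Finset.sum_const, Finset.card_univ, nsmul_eq_mul,
            ENNReal.ofReal_mul (show (0 : ℝ) ≤ Fintype.card ι by positivity),
            ENNReal.ofReal_natCast]
  rw [ENNReal.ofReal_add (by positivity) (by positivity),
    ENNReal.ofReal_add (by positivity) (by positivity),
    ENNReal.ofReal_add (by positivity) (by positivity)]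
  refine (measure_union_le _ _).trans (add_le_add ?_ b4)
  refine (measure_union_le _ _).trans (add_le_add ?_ u3)
  exact (measure_union_le _ _).trans (add_le_add u1 u2)

end

end Pool.Agent.T6.H88.GP
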