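import Mathlib
import Pool.Agent.T6.H88.GP.Good

set_option autoImplicit false

/-!
# From the Gaussian measure to the GOE
-/

namespace Pool.Agent.T6.H88.GP

open MeasureTheory ProbabilityTheory
open Pool.Agent.H320R2.LD (gam nsq nrm Lip)
open scoped NNReal

noncomputable section

variable {p : ℝ} {n : ℕ}

/-- the upper triangle -/
abbrev Tri (n : ℕ) : Type := {q : Fin n × Fin n // q.1 ≤ q.2}

/-- the symmetric matrix with given upper triangle -/
def SymM (w : Tri n → ℝ) : Fin n × Fin n → ℝ := fun q =>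
  if h : q.1 ≤ q.2 then w ⟨q, h⟩ else w ⟨(q.2, q.1), (not_le.mp h).le⟩

/-- the orthonormal family -/
def uT (q : Tri n) (r : Fin n × Fin n) : ℝ :=
  (if q.1.1 = q.1.2 then 1 / 2 else (√2)⁻¹) *
    ((if r = q.1 then 1 else 0) + (if r = (q.1.2, q.1.1) then 1 else 0))

theorem uT_orth (q q' : Tri n) : ∑ r, uT q r * uT q' r = if q = q' then 1 else 0 := by
  have hs : (√2 : ℝ)⁻¹ * (√2 : ℝ)⁻¹ = 2⁻¹ := by
    rw [← mul_inv, Real.mul_self_sqrt (by positivity)]
  obtain ⟨⟨i, j⟩, hij⟩ := q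
  obtain ⟨⟨k, l⟩, hkl⟩ := q'
  simp only at hij hkl
  have h1 : ∀ r : Fin n × Fin n, uT ⟨(i, j), hij⟩ r * uT ⟨(k, l), hkl⟩ r =
      ((if i = j then 1 / 2 else (√2)⁻¹) * (if k = l then 1 / 2 else (√2)⁻¹)) *
      (((if r = (i, j) then 1 else 0) + (if r = (j, i) then 1 else 0)) *
        ((if r = (k, l) then 1 else 0) + (if r = (l, k) then 1 else 0))) := by
    intro r
    unfold uT
    ring
  simp only [h1]
  rw [← Finset.mul_sum]
  simp only [add_mul, ite_mul, one_mul, zero_mul, Finset.sum_add_distrib, Finset.sum_ite_eq',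
    Finset.mem_univ, if_true, Prod.mk.injEq, Subtype.mk.injEq]
  by_cases h : i = k ∧ j = l
  · obtain ⟨rfl, rfl⟩ := h
    by_cases h2 : i = j
    · subst h2
      simp
      norm_num
    · have h3 : ¬ (j = i) := fun h => h2 h.symm
      simp only [h2, h3, and_self, if_true, if_false, add_zero, zero_add, hs]
      norm_num
  · rw [if_neg h]
    have h4 : ¬ (i = l ∧ j = k) := by
      rintro ⟨h5, h6⟩
      subst h5 h6
      have : i = j := le_antisymm hij hkl
      subst this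
      exact h ⟨rfl, rfl⟩
    have h5 : ¬ (j = k ∧ i = l) := fun h => h4 ⟨h.2, h.1⟩
    have h6 : ¬ (j = l ∧ i = k) := fun h' => h ⟨h'.2, h'.1⟩
    simp only [h4, h5, h6, if_false, add_zero, mul_zero]
    simp

/-- the variances -/
def vT (n : ℕ) (q : Tri n) : ℝ≥0 := if q.1.1 = q.1.2 then 2 / n else 1 / n

/-- the map to the upper triangle -/
def SA (A : Fin n × Fin n → ℝ) : Tri n → ℝ := fun q => √(vT n q : ℝ) * ∑ r, uT q r * A r

theorem SA_map : MeasurePreserving (SA (n := n)) (gam (Fin n × Fin n))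
    (Measure.pi (fun q : Tri n => gaussianReal 0 (vT n q))) := by
  have h1 := orth_map (uT (n := n)) uT_orth
  have h2 : MeasurePreserving (fun (y : Tri n → ℝ) q => √(vT n q : ℝ) * y q) (gam (Tri n))
      (Measure.pi (fun q : Tri n => gaussianReal 0 (vT n q))) := by
    refine measurePreserving_pi (fun _ : Tri n => gaussianReal 0 1)
      (fun q : Tri n => gaussianReal 0 (vT n q)) (f := fun q (y : ℝ) => √(vT n q : ℝ) * y) ?_
    intro q
    refine ⟨by fun_prop, ?_⟩
    have := gaussianReal_map_const_mul (μ := 0) (v := 1) (√(vT n q : ℝ))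
    rw [this]
    congr 1
    · simp
    · rw [mul_one]
      apply NNReal.eq
      show √(vT n q : ℝ) ^ 2 = _
      exact Real.sq_sqrt (vT n q).2
  exact h2.comp h1

theorem Sym_SA (hn : 0 < n) (A : Fin n × Fin n → ℝ) (q : Fin n × Fin n) :
    SymM (SA A) q = (√(2 * n : ℝ))⁻¹ * (A q + A (q.2, q.1)) := by
  have hn0 : (0 : ℝ) < n := by exact_mod_cast hn
  have key : ∀ q : Tri n, SA A q = (√(2 * n : ℝ))⁻¹ * (A q.1 + A (q.1.2, q.1.1)) := by
    intro q
    unfold SA uT
    have h1 : ∑ r, (if q.1.1 = q.1.2 then 1 / 2 else (√2)⁻¹) *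
        ((if r = q.1 then 1 else 0) + (if r = (q.1.2, q.1.1) then 1 else 0)) * A r =
        (if q.1.1 = q.1.2 then 1 / 2 else (√2)⁻¹) * (A q.1 + A (q.1.2, q.1.1)) := by
      simp only [mul_assoc]
      rw [← Finset.mul_sum]
      simp [add_mul, Finset.sum_add_distrib]
    rw [h1, ← mul_assoc]
    congr 1
    unfold vT
    by_cases h : q.1.1 = q.1.2
    · simp only [h, if_true]
      push_cast
      have h2 : √(2 / n : ℝ) * √(2 * n : ℝ) = 2 := by
        rw [← Real.sqrt_mul (by positivity)]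
        have : (2 / n * (2 * n) : ℝ) = 2 ^ 2 := by
          field_simp
        rw [this, Real.sqrt_sq (by norm_num)]
      have h3 : 0 < √(2 * n : ℝ) := Real.sqrt_pos.mpr (by positivity)
      field_simp
      linarith
    · simp only [h, if_false]
      push_cast
      rw [← Real.sqrt_inv, ← Real.sqrt_inv, ← Real.sqrt_mul (by positivity)]
      congr 1
      field_simp
  unfold SymM
  split_ifs with h
  · rw [key]
  · rw [key]
    simp only
    ring

theorem Q_Sym_SA (hn : 0 < n) (A : Fin n × Fin n → ℝ) (x : Fin n → ℝ) :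
    Q (SymM (SA A)) x = (2 * (√(2 * n : ℝ))⁻¹) * Q A x := by
  unfold Q
  simp only [Sym_SA hn]
  have h1 : ∑ q : Fin n × Fin n, A (q.2, q.1) * (x q.1 * x q.2) = ∑ q, A q * (x q.1 * x q.2) := by
    rw [← Equiv.sum_comp (Equiv.prodComm (Fin n) (Fin n))]
    apply Finset.sum_congr rfl
    intro q _
    simp only [Equiv.prodComm_apply, Prod.swap]
    ring
  have h2 : ∀ q : Fin n × Fin n, (√(2 * n : ℝ))⁻¹ * (A q + A (q.2, q.1)) * (x q.1 * x q.2) =
      (√(2 * n : ℝ))⁻¹ * (A q * (x q.1 * x q.2)) +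
        (√(2 * n : ℝ))⁻¹ * (A (q.2, q.1) * (x q.1 * x q.2)) := by
    intro q
    ring
  simp only [h2]
  rw [Finset.sum_add_distrib, ← Finset.mul_sum, ← Finset.mul_sum, h1]
  ring

/-- the closed set containing the bad event -/
def Bc (p r : ℝ) (n : ℕ) : Set (Tri n → ℝ) :=
  {w | ∃ x ∈ BB p (Fin n), r ≤ ‖x‖ ∧ LL p (SymM w) ≤ Q (SymM w) x}

theorem Sym_cont : Continuous (SymM (n := n)) := by
  apply continuous_pi
  intro q
  unfold SymM
  split_ifs with h
  · exact continuous_apply _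
  · exact continuous_apply _

theorem Bc_closed (hp : 2 < p) (r : ℝ) : IsClosed (Bc p r n) := by
  have hp0 : 0 < p := by linarith
  set K : Set (Fin n → ℝ) := BB p (Fin n) ∩ {x | r ≤ ‖x‖} with hK
  have hKc : IsCompact K := (BB_compact hp0).inter_right (isClosed_le continuous_const continuous_norm)
  have : CompactSpace K := isCompact_iff_compactSpace.mp hKc
  have h1 : Bc p r n = Prod.fst '' {z : (Tri n → ℝ) × K | LL p (SymM z.1) ≤ Q (SymM z.1) z.2.1} := by
    ext w
    constructor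
    · rintro ⟨x, hx1, hx2, hx3⟩
      exact ⟨(w, ⟨x, hx1, hx2⟩), hx3, rfl⟩
    · rintro ⟨⟨w', x⟩, hx, rfl⟩
      exact ⟨x.1, x.2.1, x.2.2, hx⟩
  rw [h1]
  apply isClosedMap_fst_of_compactSpace
  apply isClosed_le
  · exact (Lip.continuous (LL_lip hp)).comp (Sym_cont.comp continuous_fst)
  · unfold Q
    apply continuous_finsetSum
    intro q _
    apply Continuous.mul
    · exact ((continuous_apply q).comp Sym_cont).comp continuous_fst
    · apply Continuous.mul
      · exact (continuous_apply q.1).comp (continuous_subtype_val.comp continuous_snd)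
      · exact (continuous_apply q.2).comp (continuous_subtype_val.comp continuous_snd)

theorem Bc_good (hp : 2 < p) {s ℓ r : ℝ} (hℓ : 1 ≤ ℓ) (hs : s ≤ 5 * ℓ) (hn1 : 1 ≤ n)
    (hn : 8 * (n : ℝ) ^ (2 / p) ≤ n)
    (hr : (2060 * ℓ ^ 2) ^ (1 / (p - 2)) * (n : ℝ) ^ (-(1 / p)) < r) :
    {A : Fin n × Fin n → ℝ | SA A ∈ Bc p r n} ⊆ {A | ¬ Good p s ℓ A} := by
  intro A hA hG
  obtain ⟨x, hx, hxr, hopt⟩ := hA
  have hp0 : 0 < p := by linarith
  have hn0 : (0 : ℝ) < n := by
    have : 0 < n := by omega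
    exact_mod_cast this
  have hc : 0 < 2 * (√(2 * n : ℝ))⁻¹ := by
    have : 0 < √(2 * n : ℝ) := Real.sqrt_pos.mpr (by positivity)
    positivity
  have hopt' : ∀ y ∈ BB p (Fin n), Q A y ≤ Q A x := by
    intro y hy
    have h1 := le_mx hp0 (Q_cont (SymM (SA A))) hy
    have h2 : Q (SymM (SA A)) y ≤ Q (SymM (SA A)) x := h1.trans hopt
    rw [Q_Sym_SA (by omega), Q_Sym_SA (by omega)] at h2
    exact le_of_mul_le_mul_left h2 hc
  have h3 : ∀ i, |x i| ≤ (2060 * ℓ ^ 2) ^ (1 / (p - 2)) * (n : ℝ) ^ (-(1 / p)) := by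
    intro i
    have := good_det hp hG hℓ hs (by simpa using hn1) (by simpa using hn) x hx hopt' i
    simpa using this
  have h4 : ‖x‖ ≤ (2060 * ℓ ^ 2) ^ (1 / (p - 2)) * (n : ℝ) ^ (-(1 / p)) := by
    rw [pi_norm_le_iff_of_nonneg (by positivity)]
    intro i
    rw [Real.norm_eq_abs]
    exact h3 i
  linarith

/-- the failure probability -/
def del (n : ℕ) : ℝ := (n : ℝ) * (Nat.log 2 n + 1 : ℕ) * Real.exp (-(√(20 * Real.log n)) ^ 2 / 4) +
  (Nat.log 2 n + 1 : ℕ) * (1 / (Real.log n) ^ 2) +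
  (n : ℝ) * (2 * Real.exp (-(√(20 * Real.log n)) ^ 2 / 4)) + Real.exp (-(n : ℝ) / 256)

theorem Bc_prob (hp : 2 < p) {r : ℝ} (hn3 : 3 ≤ n) (hn : 8 * (n : ℝ) ^ (2 / p) ≤ n)
    (hr : (2060 * (Real.log n) ^ 2) ^ (1 / (p - 2)) * (n : ℝ) ^ (-(1 / p)) < r) :
    Measure.pi (fun q : Tri n => gaussianReal 0 (vT n q)) (Bc p r n) ≤
      ENNReal.ofReal (del n) := by
  have hm := (Bc_closed (n := n) hp r).measurableSet
  have h1 := (SA_map (n := n)).measure_preimage hm.nullMeasurableSet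
  rw [← h1]
  have hn3' : (3 : ℝ) ≤ n := by exact_mod_cast hn3
  have hℓ : 1 ≤ Real.log n := by
    rw [Real.le_log_iff_exp_le (by linarith)]
    have := Real.exp_one_lt_d9
    linarith
  have hs : √(20 * Real.log n) ≤ 5 * Real.log n := by
    rw [Real.sqrt_le_left (by linarith)]
    nlinarith
  have h2 := Bc_good (s := √(20 * Real.log n)) hp hℓ hs (by omega) hn hr
  have : Nonempty (Fin n) := ⟨⟨0, by omega⟩⟩
  refine (measure_mono h2).trans ?_
  have h3 := good_prob (ι := Fin n) (p := p) hp (s := √(20 * Real.log n)) (ℓ := Real.log n)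
    (Real.sqrt_nonneg _) (by linarith) (by simp; omega)
  simp only [Fintype.card_fin] at h3
  exact h3

theorem del_tendsto : Filter.Tendsto del Filter.atTop (nhds 0) := by
  have hlog : Filter.Tendsto (fun n : ℕ => Real.log n) Filter.atTop Filter.atTop :=
    Real.tendsto_log_atTop.comp tendsto_natCast_atTop_atTop
  have hb : ∀ᶠ n : ℕ in Filter.atTop, del n ≤ ((n : ℝ) ^ 3)⁻¹ + 3 / Real.log n +
      2 * ((n : ℝ) ^ 4)⁻¹ + Real.exp (-(n : ℝ) / 256) := by
    filter_upwards [Filter.eventually_ge_atTop 3] with n hn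
    have hn3' : (3 : ℝ) ≤ n := by exact_mod_cast hn
    have hn0 : (0 : ℝ) < n := by linarith
    have hℓ : 1 ≤ Real.log n := by
      rw [Real.le_log_iff_exp_le (by linarith)]
      have := Real.exp_one_lt_d9
      linarith
    have he : Real.exp (-(√(20 * Real.log n)) ^ 2 / 4) = ((n : ℝ) ^ 5)⁻¹ := by
      rw [Real.sq_sqrt (by linarith), show -(20 * Real.log n) / 4 = -(5 * Real.log n) by ring,
        Real.exp_neg, show (5 : ℝ) * Real.log n = ((5 : ℕ) : ℝ) * Real.log n by norm_num,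
        Real.exp_nat_mul, Real.exp_log hn0]
    have hJ1 : ((Nat.log 2 n + 1 : ℕ) : ℝ) ≤ n := by
      have : Nat.log 2 n + 1 ≤ n := Nat.log_lt_self 2 (by omega)
      exact_mod_cast this
    have hJ2 : ((Nat.log 2 n + 1 : ℕ) : ℝ) ≤ 3 * Real.log n := by
      have h1 : (2 : ℝ) ^ (Nat.log 2 n) ≤ n := by
        have := Nat.pow_log_le_self 2 (show n ≠ 0 by omega)
        exact_mod_cast this
      have h2 := Real.log_le_log (by positivity) h1
      rw [Real.log_pow] at h2
      have h3 := Real.log_two_gt_d9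
      push_cast
      have h4 : (0 : ℝ) ≤ (Nat.log 2 n : ℝ) := by positivity
      nlinarith
    unfold del
    rw [he]
    have t1 : (n : ℝ) * (Nat.log 2 n + 1 : ℕ) * ((n : ℝ) ^ 5)⁻¹ ≤ ((n : ℝ) ^ 3)⁻¹ := by
      calc (n : ℝ) * (Nat.log 2 n + 1 : ℕ) * ((n : ℝ) ^ 5)⁻¹ ≤ (n : ℝ) * n * ((n : ℝ) ^ 5)⁻¹ := by
            gcongr
        _ = ((n : ℝ) ^ 3)⁻¹ := by
            field_simp
    have t2 : ((Nat.log 2 n + 1 : ℕ) : ℝ) * (1 / (Real.log n) ^ 2) ≤ 3 / Real.log n := by
      calc ((Nat.log 2 n + 1 : ℕ) : ℝ) * (1 / (Real.log n) ^ 2) ≤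
            (3 * Real.log n) * (1 / (Real.log n) ^ 2) := by gcongr
        _ = 3 / Real.log n := by
            field_simp
    have t3 : (n : ℝ) * (2 * ((n : ℝ) ^ 5)⁻¹) = 2 * ((n : ℝ) ^ 4)⁻¹ := by
      field_simp
    rw [t3]
    linarith
  have hnn : ∀ n, 0 ≤ del n := by
    intro n
    unfold del
    positivity
  refine tendsto_of_tendsto_of_tendsto_of_le_of_le' tendsto_const_nhds ?_
    (Filter.Eventually.of_forall hnn) hb
  have c1 : Filter.Tendsto (fun n : ℕ => ((n : ℝ) ^ 3)⁻¹) Filter.atTop (nhds 0) :=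
    ((Filter.tendsto_pow_atTop (by norm_num)).comp tendsto_natCast_atTop_atTop).inv_tendsto_atTop
  have c2 : Filter.Tendsto (fun n : ℕ => 3 / Real.log n) Filter.atTop (nhds 0) :=
    hlog.const_div_atTop 3
  have c3 : Filter.Tendsto (fun n : ℕ => 2 * ((n : ℝ) ^ 4)⁻¹) Filter.atTop (nhds 0) := by
    have := (((Filter.tendsto_pow_atTop (α := ℝ) (n := 4) (by norm_num)).comp
      tendsto_natCast_atTop_atTop).inv_tendsto_atTop).const_mul 2
    simpa using this
  have c4 : Filter.Tendsto (fun n : ℕ => Real.exp (-(n : ℝ) / 256)) Filter.atTop (nhds 0) := by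
    apply Real.tendsto_exp_atBot.comp
    have : (fun n : ℕ => -(n : ℝ) / 256) = fun n : ℕ => -((n : ℝ) / 256) := by
      funext n
      ring
    rw [this]
    apply Filter.tendsto_neg_atTop_atBot.comp
    exact (tendsto_natCast_atTop_atTop).atTop_div_const (by norm_num)
  have := ((c1.add c2).add c3).add c4
  simpa using this

end

end Pool.Agent.T6.H88.GP
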